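import Pool.Agent.Lib.MP_90485e_an.Defs

/-!
# Multilinear algebra of the Frobenius condition
-/

set_option autoImplicit false

namespace Pool.Agent.Lib.MP_90485e_an

open ExteriorAlgebra

section

variable {E : Type*} [AddCommGroup E] [Module ℂ E]

theorem prod_eq_iMulti {q : ℕ} (u : Fin q → E) :
    (List.ofFn fun l => ι ℂ (u l)).prod = ιMulti ℂ q u := by
  rw [ιMulti_apply]

/-- a product with a repeated factor is zero -/
theorem iota_mul_iMulti_self {q : ℕ} (u : Fin q → E) (l : Fin q) :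
    ι ℂ (u l) * ιMulti ℂ q u = 0 := by
  have h : ιMulti ℂ (q + 1) (Fin.cons (u l) u : Fin (q + 1) → E) = ι ℂ (u l) * ιMulti ℂ q u := by
    have h1 := ιMulti_succ_apply (R := ℂ) (M := E) (n := q) (Fin.cons (u l) u : Fin (q + 1) → E)
    rw [h1]
    congr 1
  rw [← h]
  refine AlternatingMap.map_eq_zero_of_eq _ _ (i := 0) (j := l.succ) ?_ ?_
  · simp
  · exact (Fin.succ_ne_zero l).symm

/-- an alternating map at linear combinations of `u` is a multiple of its value at `u` -/
theorem exists_smul {q : ℕ} (u : Fin q → E) (h : Fin q → Fin q → ℂ) :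
    ∃ c : ℂ, ιMulti ℂ q (fun j => ∑ l, h j l • u l) = c • ιMulti ℂ q u := by
  classical
  have key : ∀ σ : Fin q → Fin q, ∃ c : ℂ,
      ιMulti ℂ q (fun j => h j (σ j) • u (σ j)) = c • ιMulti ℂ q u := by
    intro σ
    have h1 : ιMulti ℂ q (fun j => h j (σ j) • u (σ j))
        = (∏ j, h j (σ j)) • ιMulti ℂ q (fun j => u (σ j)) := by
      have := (ιMulti ℂ q (M := E)).toMultilinearMap.map_smul_univ (fun j => h j (σ j))
        (fun j => u (σ j))
      simpa using this
    by_cases hσ : Function.Injective σ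
    · let e : Equiv.Perm (Fin q) := Equiv.ofBijective σ (Finite.injective_iff_bijective.mp hσ)
      have h2 : ιMulti ℂ q (fun j => u (σ j)) = (Equiv.Perm.sign e) • ιMulti ℂ q u := by
        have := (ιMulti ℂ q (M := E)).map_perm u e
        simpa [e, Function.comp_def] using this
      refine ⟨(∏ j, h j (σ j)) * ((Equiv.Perm.sign e : ℤ) : ℂ), ?_⟩
      rw [h1, h2, mul_smul, Units.smul_def, ← Int.cast_smul_eq_zsmul ℂ]
    · refine ⟨0, ?_⟩
      rw [h1, zero_smul]
      obtain ⟨a, b, hab, hne⟩ : ∃ a b, σ a = σ b ∧ a ≠ b := by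
        unfold Function.Injective at hσ
        push Not at hσ
        exact hσ
      have h0 : ιMulti ℂ q (fun j => u (σ j)) = 0 :=
        AlternatingMap.map_eq_zero_of_eq (ιMulti ℂ q) (fun j => u (σ j)) (i := a) (j := b)
          (by simp only [hab]) hne
      rw [h0, smul_zero]
  choose c hc using key
  refine ⟨∑ σ, c σ, ?_⟩
  have h3 := (ιMulti ℂ q (M := E)).toMultilinearMap.map_sum (fun j l => h j l • u l)
  have h4 : ιMulti ℂ q (fun j => ∑ l, h j l • u l)
      = ∑ σ : Fin q → Fin q, ιMulti ℂ q (fun j => h j (σ j) • u (σ j)) := by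
    simpa using h3
  rw [h4, Finset.sum_smul]
  exact Finset.sum_congr rfl fun σ _ => hc σ

end

/-- In dimension at most `q + 1` every family of `q` forms satisfies the Frobenius condition. -/
theorem frobenius_of_dim {m q : ℕ} (hm : m ≤ q + 1) (β : Forms m q) (w : Fin m → ℂ) :
    FrobeniusAt β w := by
  intro j
  unfold dForm covec
  rw [prod_eq_iMulti, Finset.sum_mul]
  refine Finset.sum_eq_zero fun i _ => ?_
  set a := grad (β j i) w
  set e : Fin m → ℂ := Pi.single i 1
  set u : Fin q → (Fin m → ℂ) := fun l i => β l i w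
  have h1 : ιMulti ℂ (q + 1) (Fin.cons e u : Fin (q + 1) → (Fin m → ℂ))
      = ι ℂ e * ιMulti ℂ q u := by
    have h := ιMulti_succ_apply (R := ℂ) (n := q) (Fin.cons e u : Fin (q + 1) → (Fin m → ℂ))
    rw [h]
    congr 1
  have h2 : ιMulti ℂ (q + 2) (Fin.cons a (Fin.cons e u : Fin (q + 1) → (Fin m → ℂ)) :
      Fin (q + 2) → (Fin m → ℂ)) = ι ℂ a * (ι ℂ e * ιMulti ℂ q u) := by
    have h := ιMulti_succ_apply (R := ℂ) (n := q + 1)
      (Fin.cons a (Fin.cons e u : Fin (q + 1) → (Fin m → ℂ)) : Fin (q + 2) → (Fin m → ℂ))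
    rw [h, ← h1]
    congr 1
  rw [mul_assoc, ← h2]
  refine AlternatingMap.map_linearDependent _ _ ?_
  intro hli
  have := hli.fintype_card_le_finrank
  simp at this
  omega

end Pool.Agent.Lib.MP_90485e_an
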