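import Pool.Agent.Lib.MP_90485e_an.Defs

/-!
# Cauchy estimates and limits of holomorphic functions of several variables
-/

set_option autoImplicit false

namespace Pool.Agent.Lib.MP_90485e_an

open Filter Metric Topology

variable {k : ℕ}

/-- Cauchy's estimate for the derivative. -/
theorem norm_fderiv_le {f : (Fin k → ℂ) → ℂ} {z : Fin k → ℂ} {R M : ℝ} (hR : 0 < R) (hM0 : 0 ≤ M)
    (hf : DifferentiableOn ℂ f (ball z R)) (hM : ∀ y ∈ ball z R, ‖f y‖ ≤ M) :
    ‖fderiv ℂ f z‖ ≤ 2 * M / R := by
  refine ContinuousLinearMap.opNorm_le_bound _ (by positivity) fun v => ?_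
  by_cases hv : v = 0
  · simp [hv]
  have hv0 : 0 < ‖v‖ := norm_pos_iff.mpr hv
  have hzd : DifferentiableAt ℂ f z :=
    (hf z (mem_ball_self hR)).differentiableAt (ball_mem_nhds z hR)
  have hmem : ∀ t : ℂ, ‖t‖ < R / ‖v‖ → z + t • v ∈ ball z R := by
    intro t ht
    rw [mem_ball, dist_eq_norm, add_sub_cancel_left, norm_smul]
    rwa [lt_div_iff₀ hv0] at ht
  set g : ℂ → ℂ := fun t => f (z + t • v) with hg
  have hgd : HasDerivAt g (fderiv ℂ f z v) 0 := by
    have h1 : HasDerivAt (fun t : ℂ => z + t • v) v 0 := by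
      have := ((hasDerivAt_id (0 : ℂ)).smul_const v).const_add z
      simpa using this
    have h2 : HasFDerivAt f (fderiv ℂ f z) (z + (0 : ℂ) • v) := by
      simpa using hzd.hasFDerivAt
    exact h2.comp_hasDerivAt (0 : ℂ) h1
  have hgo : DifferentiableOn ℂ g (ball 0 (R / ‖v‖)) := by
    refine hf.comp ?_ fun t ht => hmem t (by simpa using ht)
    exact (((differentiable_id (𝕜 := ℂ)).smul_const v).const_add z).differentiableOn
  have hρ : 0 < R / (2 * ‖v‖) := by positivity
  have hlt : R / (2 * ‖v‖) < R / ‖v‖ := by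
    apply div_lt_div_of_pos_left hR hv0
    linarith
  have hcl : closedBall (0 : ℂ) (R / (2 * ‖v‖)) ⊆ ball 0 (R / ‖v‖) := closedBall_subset_ball hlt
  have hdc : DiffContOnCl ℂ g (ball 0 (R / (2 * ‖v‖))) := by
    refine (hgo.mono ?_).diffContOnCl
    exact (closure_ball_subset_closedBall).trans hcl
  have hb := Complex.norm_deriv_le_of_forall_mem_sphere_norm_le hρ hdc (C := M) fun t ht => by
    refine hM _ (hmem t ?_)
    have : ‖t‖ = R / (2 * ‖v‖) := by simpa using ht
    rw [this]
    exact hlt
  rw [hgd.deriv] at hb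
  refine hb.trans (le_of_eq ?_)
  field_simp

/-- Locally uniform limits of holomorphic functions: the limit is holomorphic and the derivatives
converge. -/
theorem limit_holo {U : Set (Fin k → ℂ)} (hU : IsOpen U) {F : ℕ → (Fin k → ℂ) → ℂ}
    {f : (Fin k → ℂ) → ℂ} (hF : ∀ n, DifferentiableOn ℂ (F n) U)
    (h : TendstoLocallyUniformlyOn F f atTop U) :
    DifferentiableOn ℂ f U ∧
      TendstoLocallyUniformlyOn (fun n z => fderiv ℂ (F n) z) (fun z => fderiv ℂ f z) atTop U := by
  have key : ∀ z0 ∈ U, ∃ R > 0, ball z0 R ⊆ U ∧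
      UniformCauchySeqOn (fun n z => fderiv ℂ (F n) z) atTop (ball z0 R) := by
    intro z0 hz0
    obtain ⟨R, hR, hRsub⟩ := Metric.nhds_basis_closedBall.mem_iff.mp (hU.mem_nhds hz0)
    have htu : TendstoUniformlyOn F f atTop (closedBall z0 R) :=
      (tendstoLocallyUniformlyOn_iff_forall_isCompact hU).mp h _ hRsub
        (isCompact_closedBall z0 R)
    refine ⟨R / 2, by positivity, ?_, ?_⟩
    · exact (ball_subset_closedBall.trans (closedBall_subset_closedBall (by linarith))).trans hRsub
    · have hc : UniformCauchySeqOn F atTop (ball z0 R) :=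
        (htu.mono ball_subset_closedBall).uniformCauchySeqOn
      rw [Metric.uniformCauchySeqOn_iff] at hc ⊢
      intro ε hε
      obtain ⟨N, hN⟩ := hc (ε * R / 8) (by positivity)
      refine ⟨N, fun m hm n hn z hz => ?_⟩
      have hzb : ball z (R / 2) ⊆ ball z0 R := by
        intro y hy
        rw [mem_ball] at *
        calc dist y z0 ≤ dist y z + dist z z0 := dist_triangle _ _ _
          _ < R / 2 + R / 2 := add_lt_add hy hz
          _ = R := by ring
      have hd1 : DifferentiableOn ℂ (F m) (ball z (R / 2)) :=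
        (hF m).mono (hzb.trans (ball_subset_closedBall.trans hRsub))
      have hd2 : DifferentiableOn ℂ (F n) (ball z (R / 2)) :=
        (hF n).mono (hzb.trans (ball_subset_closedBall.trans hRsub))
      have hz2 : z ∈ ball z (R / 2) := mem_ball_self (by positivity)
      have hsub : fderiv ℂ (F m) z - fderiv ℂ (F n) z = fderiv ℂ (fun y => F m y - F n y) z := by
        rw [fderiv_fun_sub ((hd1 z hz2).differentiableAt (ball_mem_nhds z (by positivity)))
          ((hd2 z hz2).differentiableAt (ball_mem_nhds z (by positivity)))]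
      rw [dist_eq_norm, hsub]
      have := norm_fderiv_le (f := fun y => F m y - F n y) (z := z) (R := R / 2)
        (M := ε * R / 8) (by positivity) (by positivity) (hd1.fun_sub hd2) fun y hy => by
          have := hN m hm n hn y (hzb hy)
          rw [dist_eq_norm] at this
          exact this.le
      refine this.trans_lt ?_
      have : 2 * (ε * R / 8) / (R / 2) = ε / 2 := by
        field_simp
        ring
      rw [this]
      linarith
  -- the pointwise limit of the derivatives
  have hlim : ∀ z ∈ U, ∃ L, Tendsto (fun n => fderiv ℂ (F n) z) atTop (𝓝 L) := by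
    intro z hz
    obtain ⟨R, hR, _, hc⟩ := key z hz
    exact cauchySeq_tendsto_of_complete (hc.cauchySeq (mem_ball_self hR))
  choose! g' hg' using hlim
  have hloc : TendstoLocallyUniformlyOn (fun n z => fderiv ℂ (F n) z) g' atTop U := by
    rw [tendstoLocallyUniformlyOn_iff_filter]
    intro z hz
    obtain ⟨R, hR, hsub, hc⟩ := key z hz
    have hu : TendstoUniformlyOn (fun n z => fderiv ℂ (F n) z) g' atTop (ball z R) :=
      hc.tendstoUniformlyOn_of_tendsto fun y hy => hg' y (hsub hy)
    rw [hU.nhdsWithin_eq hz]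
    exact hu.tendstoUniformlyOnFilter.mono_right (le_principal_iff.mpr (ball_mem_nhds z hR))
  have hfd : ∀ z ∈ U, HasFDerivAt f (g' z) z := by
    intro z hz
    refine hasFDerivAt_of_tendstoLocallyUniformlyOn (f := F) hU hloc ?_ ?_ hz
    · intro n y hy
      exact ((hF n y hy).differentiableAt (hU.mem_nhds hy)).hasFDerivAt
    · intro y hy
      exact h.tendsto_at hy
  refine ⟨fun z hz => (hfd z hz).differentiableAt.differentiableWithinAt, ?_⟩
  refine hloc.congr_right fun z hz => ?_
  exact (hfd z hz).fderiv.symm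

end Pool.Agent.Lib.MP_90485e_an
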