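import Mathlib

/-!
# Families of holomorphic `(1,0)`-forms and the Frobenius condition
-/

set_option autoImplicit false

namespace Pool.Agent.Lib.MP_90485e_an

open ExteriorAlgebra

/-- A family of `q` forms `α_j = ∑ i, α j i dz_i`, `j < q`, in `k` complex variables, given by its
coefficient functions. -/
abbrev Forms (k q : ℕ) : Type := Fin q → Fin k → (Fin k → ℂ) → ℂ

/-- The open polydisc of radius `R` in `ℂ^k`. -/
def polydisc (k : ℕ) (R : ℝ) : Set (Fin k → ℂ) := {z | ∀ i, ‖z i‖ < R}

/-- All coefficients are holomorphic (complex differentiable) on the (open) set `U`. -/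
def Holo {k q : ℕ} (U : Set (Fin k → ℂ)) (α : Forms k q) : Prop :=
  ∀ j i, DifferentiableOn ℂ (α j i) U

/-- The covector of `α_j` at `z` in the exterior algebra of `ℂ^k` (basis `dz_1,…,dz_k`). -/
noncomputable def covec {k q : ℕ} (α : Forms k q) (z : Fin k → ℂ) (j : Fin q) :
    ExteriorAlgebra ℂ (Fin k → ℂ) := ι ℂ (fun i => α j i z)

/-- The gradient of `f` at `z`: the covector `∂f = ∑ l, (∂f/∂z_l) dz_l`. -/
noncomputable def grad {k : ℕ} (f : (Fin k → ℂ) → ℂ) (z : Fin k → ℂ) : Fin k → ℂ :=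
  fun l => fderiv ℂ f z (Pi.single l 1)

/-- The two-form `∂α_j = ∑ i, ∂(α j i) ∧ dz_i` at `z`. -/
noncomputable def dForm {k q : ℕ} (α : Forms k q) (z : Fin k → ℂ) (j : Fin q) :
    ExteriorAlgebra ℂ (Fin k → ℂ) := ∑ i, ι ℂ (grad (α j i) z) * ι ℂ (Pi.single i 1)

/-- The Frobenius condition `∂α_j ∧ α_1 ∧ ⋯ ∧ α_q = 0`, `j = 1,…,q`, at the point `z`. -/
def FrobeniusAt {k q : ℕ} (α : Forms k q) (z : Fin k → ℂ) : Prop :=
  ∀ j, dForm α z j * (List.ofFn fun l => covec α z l).prod = 0

/-- `α` defines a holomorphic foliation (singularities allowed) of codimension `q` on the open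
connected set `U`: holomorphic coefficients, linear independence at a generic point, and the
Frobenius condition. -/
def IsFoliation {k q : ℕ} (U : Set (Fin k → ℂ)) (α : Forms k q) : Prop :=
  Holo U α ∧ (∃ z ∈ U, LinearIndependent ℂ fun j i => α j i z) ∧ ∀ z ∈ U, FrobeniusAt α z

/-- The coefficients of `A n` converge to those of `α` locally uniformly on `U`. -/
def ConvergesOn {k q : ℕ} (U : Set (Fin k → ℂ)) (A : ℕ → Forms k q) (α : Forms k q) : Prop :=
  ∀ j i, TendstoLocallyUniformlyOn (fun n => A n j i) (α j i) Filter.atTop U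

/-- `α` is a limit on `U` of families of entire forms which satisfy the Frobenius condition. -/
def EntireLimit {k q : ℕ} (U : Set (Fin k → ℂ)) (α : Forms k q) : Prop :=
  ∃ A : ℕ → Forms k q, (∀ n, Holo Set.univ (A n)) ∧ (∀ n z, FrobeniusAt (A n) z) ∧
    ConvergesOn U A α

/-- The coefficients are polynomials. -/
def IsPoly {k q : ℕ} (α : Forms k q) : Prop :=
  ∀ j i, ∃ p : MvPolynomial (Fin k) ℂ, α j i = fun z => MvPolynomial.eval z p

/-- `α` is a limit on `U` of families of polynomial forms which satisfy the Frobenius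
condition. -/
def PolyLimit {k q : ℕ} (U : Set (Fin k → ℂ)) (α : Forms k q) : Prop :=
  ∃ A : ℕ → Forms k q, (∀ n, IsPoly (A n)) ∧ (∀ n z, FrobeniusAt (A n) z) ∧ ConvergesOn U A α

/-- The family `α_j = ∑ l, h_{jl} Φ^* β_l` obtained by pull-back with `Φ` and multiplication with
a matrix `h` of functions. -/
noncomputable def pull {k m q : ℕ} (h : Fin q → Fin q → (Fin k → ℂ) → ℂ)
    (Φ : Fin m → (Fin k → ℂ) → ℂ) (β : Forms m q) : Forms k q :=
  fun j i z => ∑ l, h j l z * ∑ s, β l s (fun s' => Φ s' z) * grad (Φ s) z i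

/-- The question Q1 for codimension `q` in `ℂ^k` (`q = k - d`). -/
def QuestionOne (k q : ℕ) : Prop :=
  ∀ α : Forms k q, IsFoliation (polydisc k 1) α → EntireLimit (polydisc k 1) α

/-- One step: every foliation of the unit polydisc is, on every smaller polydisc, arbitrarily close
to a foliation of the polydisc of radius `ρ`. -/
def Enlargement (k q : ℕ) (ρ : ℝ) : Prop :=
  ∀ α : Forms k q, IsFoliation (polydisc k 1) α → ∀ r < 1, ∀ ε > 0,
    ∃ β : Forms k q, IsFoliation (polydisc k ρ) β ∧
      ∀ j i, ∀ z ∈ polydisc k r, ‖β j i z - α j i z‖ < ε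

end Pool.Agent.Lib.MP_90485e_an
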