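import Pool.Agent.Lib.MP_90485e_an.Defs

/-!
# Polynomials are dense in the holomorphic functions of a polydisc
-/

set_option autoImplicit false

namespace Pool.Agent.Lib.MP_90485e_an

open Filter Metric Topology Set

theorem isOpen_polydisc (k : ℕ) (R : ℝ) : IsOpen (polydisc k R) := by
  have : polydisc k R = ⋂ i, {z : Fin k → ℂ | ‖z i‖ < R} := by
    ext z
    simp [polydisc]
  rw [this]
  exact isOpen_iInter_of_finite fun i => isOpen_lt (by fun_prop) continuous_const

theorem continuous_eval {k : ℕ} (p : MvPolynomial (Fin k) ℂ) :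
    Continuous fun z : Fin k → ℂ => MvPolynomial.eval z p := MvPolynomial.continuous_eval p

/-- polynomial functions on a set -/
noncomputable def pol {k : ℕ} (K : Set (Fin k → ℂ)) :
    MvPolynomial (Fin k) ℂ →ₗ[ℂ] C(K, ℂ) where
  toFun p := ⟨fun z => MvPolynomial.eval z.1 p, (continuous_eval p).comp continuous_subtype_val⟩
  map_add' p p' := by
    ext z
    simp
  map_smul' c p := by
    ext z
    simp [MvPolynomial.smul_eval]

theorem circle_comm {E F : Type*} [NormedAddCommGroup E] [NormedSpace ℂ E] [CompleteSpace E]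
    [NormedAddCommGroup F] [NormedSpace ℂ F] [CompleteSpace F] (L : E →L[ℂ] F) {g : ℂ → E} {c : ℂ}
    {R : ℝ} (hg : CircleIntegrable g c R) :
    L (∮ z in C(c, R), g z) = ∮ z in C(c, R), L (g z) := by
  simp only [circleIntegral]
  rw [← L.intervalIntegral_comp_comm hg.out]
  simp

theorem dense_aux (k : ℕ) : ∀ {R r : ℝ}, 0 ≤ r → r < R → ∀ f : (Fin k → ℂ) → ℂ,
    DifferentiableOn ℂ f (polydisc k R) → ∀ ε > 0, ∃ p : MvPolynomial (Fin k) ℂ,
      ∀ z : Fin k → ℂ, (∀ i, ‖z i‖ ≤ r) → ‖MvPolynomial.eval z p - f z‖ < ε := by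
  induction k with
  | zero =>
    intro R r hr hrR f hf ε hε
    refine ⟨MvPolynomial.C (f 0), fun z _ => ?_⟩
    have : z = 0 := Subsingleton.elim _ _
    simp [this, hε]
  | succ k ih =>
    intro R r hr hrR f hf ε hε
    obtain ⟨ρ, hrρ, hρR⟩ := exists_between hrR
    obtain ⟨r', hrr', hr'ρ⟩ := exists_between hrρ
    have hρ0 : 0 < ρ := lt_of_le_of_lt hr hrρ
    have hr'0 : 0 < r' := lt_of_le_of_lt hr hrr'
    set K : Set (Fin k → ℂ) := closedBall 0 r with hK
    have : CompactSpace K := isCompact_iff_compactSpace.mp (isCompact_closedBall _ _)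
    have hKmem : ∀ z : Fin k → ℂ, z ∈ K ↔ ∀ i, ‖z i‖ ≤ r := by
      intro z
      rw [hK, mem_closedBall, dist_zero_right, pi_norm_le_iff_of_nonneg hr]
    have hmem : ∀ (ζ : ℂ) (z : Fin k → ℂ), ‖ζ‖ < R → (∀ i, ‖z i‖ < R) →
        (Fin.cons ζ z : Fin (k + 1) → ℂ) ∈ polydisc (k + 1) R := by
      intro ζ z hζ hz i
      refine Fin.cases ?_ ?_ i
      · simpa using hζ
      · intro j
        simpa using hz j
    have hcons : Continuous fun p : ℂ × (Fin k → ℂ) => (Fin.cons p.1 p.2 : Fin (k + 1) → ℂ) := by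
      refine continuous_pi fun i => ?_
      refine Fin.cases ?_ ?_ i
      · simpa using continuous_fst
      · intro j
        exact (continuous_apply j).comp continuous_snd
    -- the curried map
    let G0 : C(closedBall (0 : ℂ) ρ × K, ℂ) :=
      ⟨fun p => f (Fin.cons p.1.1 p.2.1), by
        rw [← continuousOn_univ]
        refine hf.continuousOn.comp (f := fun p : closedBall (0 : ℂ) ρ × K =>
          (Fin.cons p.1.1 p.2.1 : Fin (k + 1) → ℂ)) ?_ ?_
        · exact (hcons.comp ((continuous_subtype_val.comp continuous_fst).prodMk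
            (continuous_subtype_val.comp continuous_snd))).continuousOn
        · rintro ⟨ζ, z⟩ _
          refine hmem _ _ ?_ ?_
          · have := ζ.2
            rw [mem_closedBall, dist_zero_right] at this
            exact this.trans_lt hρR
          · intro i
            exact ((hKmem z.1).mp z.2 i).trans_lt (hrρ.trans hρR)⟩
    let G : C(closedBall (0 : ℂ) ρ, C(K, ℂ)) := G0.curry
    set P : Submodule ℂ C(K, ℂ) := (LinearMap.range (pol K)).topologicalClosure with hP
    have : CompleteSpace P :=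
      (Submodule.isClosed_topologicalClosure (LinearMap.range (pol K))).completeSpace_coe
    have hGP : ∀ ζ, G ζ ∈ P := by
      intro ζ
      rw [hP, ← SetLike.mem_coe, Submodule.topologicalClosure_coe, Metric.mem_closure_iff]
      intro δ hδ
      have hζ : ‖(ζ : ℂ)‖ < R := by
        have := ζ.2
        rw [mem_closedBall, dist_zero_right] at this
        exact this.trans_lt hρR
      have hd : DifferentiableOn ℂ (fun z : Fin k → ℂ => f (Fin.cons (ζ : ℂ) z)) (polydisc k R) := by
        refine hf.comp ?_ fun z hz => hmem _ _ hζ hz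
        refine Differentiable.differentiableOn ?_
        rw [differentiable_pi]
        intro i
        refine Fin.cases ?_ ?_ i
        · simp
        · intro j
          simpa using differentiable_apply (𝕜 := ℂ) j
      obtain ⟨p, hp⟩ := ih hr (hrρ.trans hρR) _ hd δ hδ
      refine ⟨pol K p, ⟨p, rfl⟩, ?_⟩
      rw [ContinuousMap.dist_lt_iff hδ]
      intro z
      rw [dist_comm, dist_eq_norm]
      exact hp z.1 ((hKmem z.1).mp z.2)
    classical
    let F : ℂ → P := fun ζ => if h : ζ ∈ closedBall (0 : ℂ) ρ then ⟨G ⟨ζ, h⟩, hGP _⟩ else 0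
    have hFc : ContinuousOn F (closedBall (0 : ℂ) ρ) := by
      rw [continuousOn_iff_continuous_domRestrict]
      have : (closedBall (0 : ℂ) ρ).domRestrict F = fun ζ => (⟨G ζ, hGP ζ⟩ : P) := by
        funext ζ
        simp only [Set.domRestrict_apply, F, dif_pos ζ.2]
      rw [this]
      exact G.continuous.subtype_mk _
    have hFev : ∀ ζ ∈ closedBall (0 : ℂ) ρ, ∀ z : K, (F ζ : C(K, ℂ)) z = f (Fin.cons ζ z.1) := by
      intro ζ hζ z
      simp only [F, dif_pos hζ]
      rfl
    have hint : CircleIntegrable F 0 ρ :=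
      (hFc.mono sphere_subset_closedBall).circleIntegrable hρ0.le
    set ρ' : NNReal := ⟨ρ, hρ0.le⟩ with hρ'
    have hps := hasFPowerSeriesOn_cauchy_integral (f := F) (c := 0) (R := ρ') hint
      (by exact_mod_cast hρ0)
    have hval : ∀ w ∈ ball (0 : ℂ) ρ,
        ((2 * Real.pi * Complex.I : ℂ)⁻¹ • ∮ z in C(0, (ρ' : ℝ)), (z - w)⁻¹ • F z) = F w := by
      intro w hw
      apply Subtype.ext
      ext z
      let L : P →L[ℂ] ℂ := (ContinuousMap.evalCLM ℂ z).comp P.subtypeL
      have hL : ∀ y : P, L y = (y : C(K, ℂ)) z := fun y => rfl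
      rw [← hL, ← hL, map_smul]
      have hsub : CircleIntegrable (fun z => (z - w)⁻¹ • F z) 0 ρ := by
        refine ContinuousOn.circleIntegrable hρ0.le ?_
        refine ContinuousOn.fun_smul (f := fun z => (z - w)⁻¹) ?_
          (hFc.mono sphere_subset_closedBall)
        refine ContinuousOn.inv₀ (by fun_prop) ?_
        intro x hx h0
        rw [sub_eq_zero] at h0
        rw [h0] at hx
        rw [mem_sphere, dist_zero_right] at hx
        rw [mem_ball, dist_zero_right] at hw
        linarith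
      have h1 : L (∮ z in C(0, (ρ' : ℝ)), (z - w)⁻¹ • F z)
          = ∮ ζ in C(0, ρ), (ζ - w)⁻¹ • f (Fin.cons ζ z.1) := by
        have h2 := circle_comm L hsub
        have h3 : (∮ ζ in C(0, ρ), L ((ζ - w)⁻¹ • F ζ))
            = ∮ ζ in C(0, ρ), (ζ - w)⁻¹ • f (Fin.cons ζ z.1) := by
          refine circleIntegral.integral_congr hρ0.le fun ζ hζ => ?_
          rw [map_smul, hL, hFev ζ (sphere_subset_closedBall hζ)]
        exact h2.trans h3
      rw [h1]
      have hdc : DiffContOnCl ℂ (fun ζ : ℂ => f (Fin.cons ζ z.1)) (ball 0 ρ) := by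
        have hdo : DifferentiableOn ℂ (fun ζ : ℂ => f (Fin.cons ζ z.1)) (ball 0 R) := by
          refine hf.comp ?_ fun ζ hζ => hmem _ _ (by simpa using hζ)
            fun i => ((hKmem z.1).mp z.2 i).trans_lt (hrρ.trans hρR)
          refine Differentiable.differentiableOn ?_
          rw [differentiable_pi]
          intro i
          refine Fin.cases ?_ ?_ i
          · simp
          · intro j
            simp
        refine (hdo.mono ?_).diffContOnCl
        exact closure_ball_subset_closedBall.trans (closedBall_subset_ball hρR)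
      have h4 := hdc.circleIntegral_sub_inv_smul hw
      rw [h4, smul_smul, inv_mul_cancel₀ (by simp [Real.pi_ne_zero]), one_smul, hL,
        hFev w (ball_subset_closedBall hw)]
    -- the Taylor polynomials
    set r'' : NNReal := ⟨r', hr'0.le⟩ with hr''
    have hr'NN : (r'' : ENNReal) < (ρ' : ENNReal) := by
      rw [ENNReal.coe_lt_coe, ← NNReal.coe_lt_coe]
      exact hr'ρ
    have hunif := hps.tendstoUniformlyOn hr'NN
    rw [Metric.tendstoUniformlyOn_iff] at hunif
    obtain ⟨N, hN⟩ := (hunif (ε / 2) (by positivity)).exists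
    set c : ℕ → P := fun m => (cauchyPowerSeries F 0 ρ').coeff m with hc
    have hpart : ∀ w : ℂ, (cauchyPowerSeries F 0 ρ').partialSum N w
        = ∑ m ∈ Finset.range N, w ^ m • c m := by
      intro w
      unfold FormalMultilinearSeries.partialSum
      refine Finset.sum_congr rfl fun m _ => ?_
      rw [FormalMultilinearSeries.apply_eq_pow_smul_coeff]
    set S : ℝ := 1 + ∑ m ∈ Finset.range N, r ^ m with hS
    have hS1 : 1 ≤ S := by
      rw [hS]
      have : 0 ≤ ∑ m ∈ Finset.range N, r ^ m := Finset.sum_nonneg fun m _ => pow_nonneg hr m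
      linarith
    have hcm : ∀ m, ∃ p : MvPolynomial (Fin k) ℂ,
        dist ((c m : P) : C(K, ℂ)) (pol K p) < ε / (2 * S) := by
      intro m
      have h1 : ((c m : P) : C(K, ℂ)) ∈ closure ((LinearMap.range (pol K) : Submodule ℂ C(K, ℂ)) :
          Set C(K, ℂ)) := (c m).2
      rw [Metric.mem_closure_iff] at h1
      obtain ⟨b, ⟨p, hp⟩, hb⟩ := h1 (ε / (2 * S)) (by positivity)
      exact ⟨p, by rw [hp]; exact hb⟩
    choose p hp using hcm
    refine ⟨∑ m ∈ Finset.range N, MvPolynomial.X 0 ^ m * MvPolynomial.rename Fin.succ (p m), ?_⟩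
    intro y hy
    set w : ℂ := y 0 with hw
    have hwr : ‖w‖ ≤ r := hy 0
    have hyK : Fin.tail y ∈ K := (hKmem _).mpr fun i => hy i.succ
    set z : K := ⟨Fin.tail y, hyK⟩ with hz
    have hyc : (Fin.cons w z.1 : Fin (k + 1) → ℂ) = y := Fin.cons_self_tail y
    have hwb : w ∈ ball (0 : ℂ) r' := by
      rw [mem_ball, dist_zero_right]
      exact hwr.trans_lt hrr'
    have hwρ : w ∈ ball (0 : ℂ) ρ := ball_subset_ball hr'ρ.le hwb
    have e1 : MvPolynomial.eval y (∑ m ∈ Finset.range N,
        MvPolynomial.X 0 ^ m * MvPolynomial.rename Fin.succ (p m))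
        = ∑ m ∈ Finset.range N, w ^ m * (pol K (p m)) z := by
      rw [map_sum]
      refine Finset.sum_congr rfl fun m _ => ?_
      rw [map_mul, map_pow, MvPolynomial.eval_X, MvPolynomial.eval_rename]
      rfl
    have e2 : f y = (F w : C(K, ℂ)) z := by
      rw [hFev w (ball_subset_closedBall hwρ), hyc]
    have h5 := hN w hwb
    simp only [zero_add] at h5
    rw [hval w hwρ, hpart w, dist_eq_norm] at h5
    have h6 : ‖((F w : C(K, ℂ)) z) - ∑ m ∈ Finset.range N, w ^ m * ((c m : C(K, ℂ)) z)‖ < ε / 2 := by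
      have h7 : ((F w : C(K, ℂ)) z) - ∑ m ∈ Finset.range N, w ^ m * ((c m : C(K, ℂ)) z)
          = ((F w - ∑ m ∈ Finset.range N, w ^ m • c m : P) : C(K, ℂ)) z := by
        simp
      rw [h7]
      refine lt_of_le_of_lt (ContinuousMap.norm_coe_le_norm _ z) ?_
      exact h5
    have h8 : ‖∑ m ∈ Finset.range N, w ^ m * (pol K (p m)) z
        - ∑ m ∈ Finset.range N, w ^ m * ((c m : C(K, ℂ)) z)‖ ≤ ε / 2 := by
      rw [← Finset.sum_sub_distrib]
      refine (norm_sum_le _ _).trans ?_
      have h9 : ∀ m ∈ Finset.range N, ‖w ^ m * (pol K (p m)) z - w ^ m * ((c m : C(K, ℂ)) z)‖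
          ≤ r ^ m * (ε / (2 * S)) := by
        intro m _
        rw [← mul_sub, norm_mul, norm_pow]
        refine mul_le_mul (pow_le_pow_left₀ (norm_nonneg _) hwr m) ?_ (norm_nonneg _)
          (pow_nonneg hr m)
        have h10 := (ContinuousMap.dist_lt_iff (by positivity)).mp (hp m) z
        rw [dist_comm, dist_eq_norm] at h10
        exact h10.le
      refine (Finset.sum_le_sum h9).trans ?_
      rw [← Finset.sum_mul]
      have h11 : ∑ m ∈ Finset.range N, r ^ m ≤ S := by rw [hS]; linarith
      calc (∑ m ∈ Finset.range N, r ^ m) * (ε / (2 * S)) ≤ S * (ε / (2 * S)) :=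
            mul_le_mul_of_nonneg_right h11 (by positivity)
        _ = ε / 2 := by field_simp
    rw [e1, e2]
    calc ‖∑ m ∈ Finset.range N, w ^ m * (pol K (p m)) z - (F w : C(K, ℂ)) z‖
        = ‖(∑ m ∈ Finset.range N, w ^ m * (pol K (p m)) z
          - ∑ m ∈ Finset.range N, w ^ m * ((c m : C(K, ℂ)) z))
          - (((F w : C(K, ℂ)) z) - ∑ m ∈ Finset.range N, w ^ m * ((c m : C(K, ℂ)) z))‖ := by
          congr 1
          ring
      _ ≤ ‖∑ m ∈ Finset.range N, w ^ m * (pol K (p m)) z
          - ∑ m ∈ Finset.range N, w ^ m * ((c m : C(K, ℂ)) z)‖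
          + ‖((F w : C(K, ℂ)) z) - ∑ m ∈ Finset.range N, w ^ m * ((c m : C(K, ℂ)) z)‖ :=
          norm_sub_le _ _
      _ < ε / 2 + ε / 2 := add_lt_add_of_le_of_lt h8 h6
      _ = ε := by ring

/-- Density: every holomorphic function on the polydisc is a locally uniform limit of
polynomials. -/
theorem exists_poly_seq {k : ℕ} {R : ℝ} {f : (Fin k → ℂ) → ℂ}
    (hf : DifferentiableOn ℂ f (polydisc k R)) : ∃ p : ℕ → MvPolynomial (Fin k) ℂ,
      TendstoLocallyUniformlyOn (fun n z => MvPolynomial.eval z (p n)) f atTop (polydisc k R) := by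
  by_cases hR : 0 < R
  · have hrn : ∀ n : ℕ, 0 ≤ R * (1 - 1 / ((n : ℝ) + 1)) ∧ R * (1 - 1 / ((n : ℝ) + 1)) < R := by
      intro n
      have h0 : 0 < 1 / ((n : ℝ) + 1) := by positivity
      have h1 : 1 / ((n : ℝ) + 1) ≤ 1 := by
        rw [div_le_one (by positivity)]
        linarith [Nat.cast_nonneg (α := ℝ) n]
      constructor
      · exact mul_nonneg hR.le (by linarith)
      · nlinarith
    have hex : ∀ n : ℕ, ∃ p : MvPolynomial (Fin k) ℂ, ∀ z : Fin k → ℂ,
        (∀ i, ‖z i‖ ≤ R * (1 - 1 / ((n : ℝ) + 1))) →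
          ‖MvPolynomial.eval z p - f z‖ < 1 / ((n : ℝ) + 1) := fun n =>
      dense_aux k (hrn n).1 (hrn n).2 f hf _ (by positivity)
    choose p hp using hex
    refine ⟨p, ?_⟩
    rw [tendstoLocallyUniformlyOn_iff_forall_isCompact (isOpen_polydisc k R)]
    intro K hKsub hK
    rw [Metric.tendstoUniformlyOn_iff]
    intro ε hε
    -- the compact set is contained in a smaller polydisc
    obtain ⟨r, hrR, hr⟩ : ∃ r < R, ∀ z ∈ K, ∀ i, ‖z i‖ ≤ r := by
      rcases K.eq_empty_or_nonempty with hKe | hKn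
      · exact ⟨0, hR, fun z hz => by simp [hKe] at hz⟩
      · obtain ⟨z0, hz0, hmax⟩ := hK.exists_isMaxOn hKn (continuous_norm.continuousOn)
        refine ⟨max 0 ‖z0‖, ?_, fun z hz i => ?_⟩
        · refine max_lt hR ?_
          rw [pi_norm_lt_iff hR]
          exact hKsub hz0
        · exact (norm_le_pi_norm z i).trans ((hmax hz).trans (le_max_right _ _))
    have h1 : Tendsto (fun n : ℕ => 1 / ((n : ℝ) + 1)) atTop (𝓝 0) :=
      tendsto_one_div_add_atTop_nhds_zero_nat
    have h2 : Tendsto (fun n : ℕ => R * (1 - 1 / ((n : ℝ) + 1))) atTop (𝓝 R) := by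
      have := (h1.const_sub 1).const_mul R
      simpa using this
    filter_upwards [h1.eventually (gt_mem_nhds hε), h2.eventually (lt_mem_nhds hrR)] with n hn1 hn2
    intro z hz
    rw [dist_comm, dist_eq_norm]
    exact (hp n z fun i => (hr z hz i).trans hn2.le).trans hn1
  · by_cases hk : k = 0
    · subst hk
      refine ⟨fun _ => MvPolynomial.C (f 0), ?_⟩
      have : (fun (_ : ℕ) (z : Fin 0 → ℂ) => MvPolynomial.eval z (MvPolynomial.C (f 0)))
          = fun _ => f := by
        funext n z
        have : z = 0 := Subsingleton.elim _ _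
        simp [this]
      rw [this]
      refine Metric.tendstoLocallyUniformlyOn_iff.mpr fun ε hε x _ => ⟨univ, univ_mem, ?_⟩
      simp [hε]
    · have : polydisc k R = ∅ := by
        ext z
        simp only [polydisc, mem_ofPred_eq, mem_empty_iff_false, iff_false, not_forall, not_lt]
        exact ⟨⟨0, Nat.pos_of_ne_zero hk⟩, (not_lt.mp hR).trans (norm_nonneg _)⟩
      rw [this]
      exact ⟨fun _ => 0, fun _ _ x hx => absurd hx (Set.notMem_empty x)⟩

end Pool.Agent.Lib.MP_90485e_an
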