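import Pool.Agent.Lib.MP_90485e_an.Stab

/-!
# The question is equivalent to a one-step enlargement
-/

set_option autoImplicit false

namespace Pool.Agent.Lib.MP_90485e_an

open Filter Metric Topology ExteriorAlgebra

theorem polydisc_mono {k : ℕ} {r R : ℝ} (h : r ≤ R) : polydisc k r ⊆ polydisc k R :=
  fun _ hz i => (hz i).trans_le h

theorem grad_scale {k : ℕ} (f : (Fin k → ℂ) → ℂ) (c : ℂ) (z : Fin k → ℂ) :
    grad (fun z => f (c • z)) z = c • grad f (c • z) := by
  funext l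
  unfold grad
  rw [fderiv_comp_smul]
  simp

theorem frobenius_scale {k q : ℕ} {α : Forms k q} {c : ℂ} {z : Fin k → ℂ}
    (h : FrobeniusAt α (c • z)) : FrobeniusAt (fun j i z => α j i (c • z)) z := by
  intro j
  have h1 : dForm (fun j i z => α j i (c • z)) z j = c • dForm α (c • z) j := by
    unfold dForm
    rw [Finset.smul_sum]
    refine Finset.sum_congr rfl fun i _ => ?_
    rw [grad_scale, map_smul, smul_mul_assoc]
  rw [h1, smul_mul_assoc]
  have h2 : (List.ofFn fun l => covec (fun j i z => α j i (c • z)) z l)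
      = List.ofFn fun l => covec α (c • z) l := rfl
  rw [h2, h j, smul_zero]

theorem foliation_scale {k q : ℕ} {α : Forms k q} {c S : ℝ} (hc : 0 < c)
    (h : IsFoliation (polydisc k (c * S)) α) :
    IsFoliation (polydisc k S) (fun j i z => α j i ((c : ℂ) • z)) := by
  obtain ⟨h1, ⟨z0, hz0, hli⟩, h3⟩ := h
  have hmem : ∀ z ∈ polydisc k S, (c : ℂ) • z ∈ polydisc k (c * S) := by
    intro z hz i
    rw [Pi.smul_apply, smul_eq_mul, norm_mul, Complex.norm_real, Real.norm_of_nonneg hc.le]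
    exact mul_lt_mul_of_pos_left (hz i) hc
  have hc' : (c : ℂ) ≠ 0 := by exact_mod_cast hc.ne'
  refine ⟨fun j i => ?_, ⟨(c : ℂ)⁻¹ • z0, ?_, ?_⟩, fun z hz => frobenius_scale (h3 _ (hmem z hz))⟩
  · exact (h1 j i).comp (differentiable_id.const_smul (c : ℂ)).differentiableOn hmem
  · intro i
    rw [Pi.smul_apply, smul_eq_mul, norm_mul, norm_inv, Complex.norm_real,
      Real.norm_of_nonneg hc.le, inv_mul_lt_iff₀ hc]
    exact hz0 i
  · simpa [smul_smul, hc'] using hli

/-- Enlargement for polydiscs of arbitrary radius. -/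
theorem enlargement_scale {k q : ℕ} {ρ : ℝ} (h : Enlargement k q ρ) {R : ℝ} (hR : 0 < R)
    {α : Forms k q} (hα : IsFoliation (polydisc k R) α) {r : ℝ} (hr : r < R) {ε : ℝ}
    (hε : 0 < ε) : ∃ β : Forms k q, IsFoliation (polydisc k (ρ * R)) β ∧
      ∀ j i, ∀ z ∈ polydisc k r, ‖β j i z - α j i z‖ < ε := by
  obtain ⟨β', hβ', hc⟩ := h (fun j i z => α j i ((R : ℂ) • z))
    (foliation_scale (S := 1) hR (by simpa using hα)) (r / R) ((div_lt_one hR).mpr hr) ε hε
  have hRc : (R : ℂ) ≠ 0 := by exact_mod_cast hR.ne'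
  refine ⟨fun j i z => β' j i (((R⁻¹ : ℝ) : ℂ) • z), ?_, fun j i z hz => ?_⟩
  · refine foliation_scale (inv_pos.mpr hR) ?_
    have : R⁻¹ * (ρ * R) = ρ := by field_simp
    rw [this]
    exact hβ'
  · have h1 : ((R⁻¹ : ℝ) : ℂ) • z ∈ polydisc k (r / R) := by
      intro i
      rw [Pi.smul_apply, smul_eq_mul, norm_mul, Complex.norm_real,
        Real.norm_of_nonneg (inv_pos.mpr hR).le, div_eq_inv_mul]
      exact mul_lt_mul_of_pos_left (hz i) (inv_pos.mpr hR)
    have h2 := hc j i _ h1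
    have h3 : (R : ℂ) • (((R⁻¹ : ℝ) : ℂ) • z) = z := by
      rw [smul_smul, Complex.ofReal_inv, mul_inv_cancel₀ hRc, one_smul]
    rwa [h3] at h2

/-- convergence on an exhaustion -/
theorem converges_of_exhaustion {k : ℕ} {F : ℕ → (Fin k → ℂ) → ℂ} {f : (Fin k → ℂ) → ℂ}
    (h : ∀ n : ℕ, ∀ z ∈ polydisc k (1 - 1 / ((n : ℝ) + 2)), ‖F n z - f z‖ ≤ 1 / ((n : ℝ) + 1)) :
    TendstoLocallyUniformlyOn F f atTop (polydisc k 1) := by
  rw [Metric.tendstoLocallyUniformlyOn_iff]
  intro ε hε z0 hz0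
  -- a radius
  obtain ⟨r, hr1, hr⟩ : ∃ r < (1 : ℝ), z0 ∈ polydisc k r := by
    refine ⟨(1 + ‖z0‖) / 2, ?_, fun i => ?_⟩
    · have : ‖z0‖ < 1 := (pi_norm_lt_iff one_pos).mpr hz0
      linarith
    · have h1 : ‖z0‖ < 1 := (pi_norm_lt_iff one_pos).mpr hz0
      have h2 := norm_le_pi_norm z0 i
      linarith
  refine ⟨polydisc k r, mem_nhdsWithin_of_mem_nhds ((isOpen_polydisc k r).mem_nhds hr), ?_⟩
  have h1 : Tendsto (fun n : ℕ => 1 / ((n : ℝ) + 1)) atTop (𝓝 0) :=
    tendsto_one_div_add_atTop_nhds_zero_nat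
  filter_upwards [h1.eventually (gt_mem_nhds hε), h1.eventually (gt_mem_nhds (sub_pos.mpr hr1))]
    with n hn1 hn2
  intro z hz
  rw [dist_comm, dist_eq_norm]
  refine (h n z (polydisc_mono ?_ hz)).trans_lt hn1
  have h3 : 1 / ((n : ℝ) + 2) ≤ 1 / ((n : ℝ) + 1) := by
    apply one_div_le_one_div_of_le
    · positivity
    · linarith
  linarith

/-- The iteration. -/
theorem exists_entire {k q : ℕ} {ρ : ℝ} (hρ : 1 < ρ) (h : Enlargement k q ρ) {α : Forms k q}
    (hα : IsFoliation (polydisc k 1) α) {r : ℝ} (hr0 : 0 < r) (hr : r < 1) {ε : ℝ} (hε : 0 < ε) :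
    ∃ L : Forms k q, Holo Set.univ L ∧ (∀ z, FrobeniusAt L z) ∧
      ∀ j i, ∀ z ∈ polydisc k r, ‖L j i z - α j i z‖ ≤ ε := by
  have hρ0 : 0 < ρ := by linarith
  have step : ∀ (n : ℕ) (β : Forms k q), IsFoliation (polydisc k (ρ ^ n)) β →
      ∃ β' : Forms k q, IsFoliation (polydisc k (ρ ^ (n + 1))) β' ∧
        ∀ j i, ∀ z ∈ polydisc k (r * ρ ^ n), ‖β' j i z - β j i z‖ < ε / 2 * (1 / 2) ^ n := by
    intro n β hβ
    have hpos : 0 < ρ ^ n := pow_pos hρ0 n
    obtain ⟨β', h1, h2⟩ := enlargement_scale h hpos hβ (r := r * ρ ^ n)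
      (by nlinarith) (ε := ε / 2 * (1 / 2) ^ n) (by positivity)
    refine ⟨β', ?_, h2⟩
    rw [pow_succ, mul_comm]
    exact h1
  choose! next hnext1 hnext2 using step
  let B : ℕ → Forms k q := fun n => Nat.rec α (fun n β => next n β) n
  have hBs : ∀ n, B (n + 1) = next n (B n) := fun n => rfl
  have hBf : ∀ n, IsFoliation (polydisc k (ρ ^ n)) (B n) := by
    intro n
    induction n with
    | zero =>
      rw [pow_zero]
      exact hα
    | succ n ih =>
      rw [hBs]
      exact hnext1 n _ ih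
  have hBd : ∀ n j i, ∀ z ∈ polydisc k (r * ρ ^ n),
      ‖B (n + 1) j i z - B n j i z‖ < ε / 2 * (1 / 2) ^ n := by
    intro n j i z hz
    rw [hBs]
    exact hnext2 n _ (hBf n) j i z hz
  have hmono : ∀ {m n : ℕ}, m ≤ n → r * ρ ^ m ≤ r * ρ ^ n := fun hmn =>
    mul_le_mul_of_nonneg_left (pow_le_pow_right₀ hρ.le hmn) hr0.le
  have hdist : ∀ m j i, ∀ z ∈ polydisc k (r * ρ ^ m), ∀ n,
      dist (B (n + m) j i z) (B (n + 1 + m) j i z) ≤ (ε / 2 * (1 / 2) ^ m) * (1 / 2) ^ n := by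
    intro m j i z hz n
    have h1 := hBd (n + m) j i z (polydisc_mono (hmono (Nat.le_add_left m n)) hz)
    rw [dist_comm, dist_eq_norm]
    have h2 : n + 1 + m = n + m + 1 := by ring
    rw [h2]
    refine h1.le.trans (le_of_eq ?_)
    rw [pow_add]
    ring
  have hexh : ∀ z : Fin k → ℂ, ∃ m : ℕ, z ∈ polydisc k (r * ρ ^ m) := by
    intro z
    obtain ⟨m, hm⟩ := pow_unbounded_of_one_lt (‖z‖ / r) hρ
    refine ⟨m, fun i => (norm_le_pi_norm z i).trans_lt ?_⟩
    rwa [div_lt_iff₀' hr0] at hm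
  have hlim : ∀ j i z, ∃ l, Tendsto (fun n => B n j i z) atTop (𝓝 l) := by
    intro j i z
    obtain ⟨m, hm⟩ := hexh z
    have hc := cauchySeq_of_le_geometric (f := fun n => B (n + m) j i z) (1 / 2)
      (ε / 2 * (1 / 2) ^ m) (by norm_num) (hdist m j i z hm)
    obtain ⟨l, hl⟩ := cauchySeq_tendsto_of_complete hc
    exact ⟨l, (tendsto_add_atTop_iff_nat m).mp hl⟩
  choose L hL using hlim
  have hbound : ∀ m j i, ∀ z ∈ polydisc k (r * ρ ^ m), ∀ n,
      dist (B (n + m) j i z) (L j i z) ≤ (ε / 2 * (1 / 2) ^ m) * (1 / 2) ^ n / (1 - 1 / 2) := by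
    intro m j i z hz n
    exact dist_le_of_le_geometric_of_tendsto (f := fun n => B (n + m) j i z) (1 / 2)
      (ε / 2 * (1 / 2) ^ m) (by norm_num) (hdist m j i z hz)
      ((tendsto_add_atTop_iff_nat m).mpr (hL j i z)) n
  have hconv : ∀ m, ConvergesOn (polydisc k (r * ρ ^ m)) (fun n => B (n + m)) L := by
    intro m j i
    refine TendstoUniformlyOn.tendstoLocallyUniformlyOn ?_
    rw [Metric.tendstoUniformlyOn_iff]
    intro δ hδ
    have h1 : Tendsto (fun n : ℕ => (ε / 2 * (1 / 2) ^ m) * (1 / 2 : ℝ) ^ n / (1 - 1 / 2)) atTop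
        (𝓝 0) := by
      have h2 := (tendsto_pow_atTop_nhds_zero_of_lt_one (r := (1 / 2 : ℝ)) (by norm_num)
        (by norm_num)).const_mul (ε / 2 * (1 / 2) ^ m)
      have h3 := h2.div_const (1 - 1 / 2 : ℝ)
      simpa using h3
    filter_upwards [h1.eventually (gt_mem_nhds hδ)] with n hn z hz
    rw [dist_comm]
    exact (hbound m j i z hz n).trans_lt hn
  have hint : ∀ m, Holo (polydisc k (r * ρ ^ m)) L ∧
      ∀ z ∈ polydisc k (r * ρ ^ m), FrobeniusAt L z := by
    intro m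
    have hsub : ∀ n, polydisc k (r * ρ ^ m) ⊆ polydisc k (ρ ^ (n + m)) := by
      intro n
      refine polydisc_mono ?_
      have h1 : ρ ^ m ≤ ρ ^ (n + m) := pow_le_pow_right₀ hρ.le (Nat.le_add_left m n)
      have h2 : 0 < ρ ^ m := pow_pos hρ0 m
      nlinarith
    refine limit_integrable (isOpen_polydisc k _) (fun n => ?_) (fun n z hz => ?_) (hconv m)
    · exact fun j i => ((hBf (n + m)).1 j i).mono (hsub n)
    · exact (hBf (n + m)).2.2 z (hsub n hz)
  refine ⟨L, fun j i => ?_, fun z => ?_, fun j i z hz => ?_⟩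
  · intro z _
    obtain ⟨m, hm⟩ := hexh z
    exact (((hint m).1 j i z hm).differentiableAt
      ((isOpen_polydisc k _).mem_nhds hm)).differentiableWithinAt
  · obtain ⟨m, hm⟩ := hexh z
    exact (hint m).2 z hm
  · have h1 := hbound 0 j i z (by simpa using hz) 0
    rw [dist_comm, dist_eq_norm] at h1
    have h2 : B (0 + 0) = α := rfl
    rw [h2] at h1
    refine h1.trans (le_of_eq ?_)
    norm_num
    ring

theorem exists_near {k q : ℕ} {A : ℕ → Forms k q} {α : Forms k q}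
    (h : ConvergesOn (polydisc k 1) A α) {r : ℝ} (hr : r < 1) {ε : ℝ} (hε : 0 < ε) :
    ∀ᶠ n in atTop, ∀ j i, ∀ z ∈ polydisc k r, ‖A n j i z - α j i z‖ < ε := by
  rw [eventually_all]
  intro j
  rw [eventually_all]
  intro i
  have h1 := (tendstoLocallyUniformlyOn_iff_forall_isCompact (isOpen_polydisc k 1)).mp (h j i)
    (closedBall 0 (max r 0)) ?_ (isCompact_closedBall _ _)
  · rw [Metric.tendstoUniformlyOn_iff] at h1
    filter_upwards [h1 ε hε] with n hn z hz
    have := hn z ?_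
    · rwa [dist_comm, dist_eq_norm] at this
    · rw [mem_closedBall, dist_zero_right, pi_norm_le_iff_of_nonneg (le_max_right _ _)]
      exact fun i => (hz i).le.trans (le_max_left _ _)
  · intro z hz i
    rw [mem_closedBall, dist_zero_right] at hz
    exact ((norm_le_pi_norm z i).trans hz).trans_lt (max_lt hr one_pos)

/-- **Reduction.** The question Q1 is equivalent to a one-step enlargement by any fixed factor
`ρ > 1`. -/
theorem questionOne_iff (k q : ℕ) {ρ : ℝ} (hρ : 1 < ρ) :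
    QuestionOne k q ↔ Enlargement k q ρ := by
  constructor
  · intro hQ α hα r hr ε hε
    obtain ⟨A, hAd, hAF, hAc⟩ := hQ α hα
    obtain ⟨_, ⟨z0, hz0, hli⟩, _⟩ := hα
    have h1 : Tendsto (fun n => (fun j i => A n j i z0 : Fin q → Fin k → ℂ)) atTop
        (𝓝 (fun j i => α j i z0)) := by
      rw [tendsto_pi_nhds]
      intro j
      rw [tendsto_pi_nhds]
      intro i
      exact (hAc j i).tendsto_at hz0
    have h2 : ∀ᶠ n in atTop, LinearIndependent ℂ (fun j i => A n j i z0 : Fin q → Fin k → ℂ) :=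
      h1.eventually (isOpen_setOfPred_linearIndependent.mem_nhds hli)
    obtain ⟨n, hn1, hn2⟩ := (h2.and (exists_near hAc hr hε)).exists
    exact ⟨A n, ⟨fun j i => (hAd n j i).mono (Set.subset_univ _),
      ⟨z0, polydisc_mono hρ.le hz0, hn1⟩, fun z _ => hAF n z⟩, hn2⟩
  · intro hE α hα
    have hr : ∀ n : ℕ, 0 < 1 - 1 / ((n : ℝ) + 2) ∧ 1 - 1 / ((n : ℝ) + 2) < 1 := by
      intro n
      have h0 : (0 : ℝ) ≤ n := Nat.cast_nonneg n
      have h1 : 1 / ((n : ℝ) + 2) < 1 := by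
        rw [div_lt_one (by positivity)]
        linarith
      have h2 : 0 < 1 / ((n : ℝ) + 2) := by positivity
      constructor <;> linarith
    choose L hL1 hL2 hL3 using fun n : ℕ =>
      exists_entire hρ hE hα (hr n).1 (hr n).2 (ε := 1 / ((n : ℝ) + 1)) (by positivity)
    exact ⟨L, hL1, hL2, fun j i => converges_of_exhaustion fun n z hz => hL3 n j i z hz⟩

/-- Holomorphic families of `q` forms in at most `q + 1` variables: no condition is needed. -/
theorem polyLimit_dim {m q : ℕ} (hm : m ≤ q + 1) {R : ℝ} {β : Forms m q}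
    (hβ : Holo (polydisc m R) β) : PolyLimit (polydisc m R) β := by
  choose p hp using fun j i => exists_poly_seq (hβ j i)
  refine ⟨fun n j i z => MvPolynomial.eval z (p j i n), fun n j i => ⟨_, rfl⟩, fun n z => ?_,
    hp⟩
  exact frobenius_of_dim hm _ z

theorem PolyLimit.entireLimit {k q : ℕ} {U : Set (Fin k → ℂ)} {α : Forms k q}
    (h : PolyLimit U α) : EntireLimit U α := by
  obtain ⟨A, h1, h2, h3⟩ := h
  refine ⟨A, fun n j i => ?_, h2, h3⟩
  obtain ⟨p, hp⟩ := h1 n j i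
  rw [hp]
  exact ((contDiff_eval p (n := 1)).differentiable (by norm_num)).differentiableOn

end Pool.Agent.Lib.MP_90485e_an
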