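import Pool.Agent.Lib.MP_90485e_an.Cauchy
import Pool.Agent.Lib.MP_90485e_an.Alg

/-!
# The Frobenius condition passes to limits
-/

set_option autoImplicit false

namespace Pool.Agent.Lib.MP_90485e_an

open Filter Metric Topology ExteriorAlgebra

/-- a multilinear function on `ℂ^k` with values in `ℂ` is continuous along filters -/
theorem multilinear_tendsto {k r : ℕ} {X : Type*} {F : Filter X}
    (M : MultilinearMap ℂ (fun _ : Fin r => (Fin k → ℂ)) ℂ)
    {u : X → Fin r → Fin k → ℂ} {v : Fin r → Fin k → ℂ}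
    (h : ∀ l i, Tendsto (fun x => u x l i) F (𝓝 (v l i))) :
    Tendsto (fun x => M (u x)) F (𝓝 (M v)) := by
  classical
  have key : ∀ w : Fin r → Fin k → ℂ, M w
      = ∑ σ : Fin r → Fin k, (∏ l, w l (σ l)) * M fun l => Pi.single (σ l) 1 := by
    intro w
    have h1 : w = fun l => ∑ i, w l i • (Pi.single i 1 : Fin k → ℂ) := by
      funext l
      ext i
      simp [Finset.sum_apply, Pi.single_apply]
    conv_lhs => rw [h1]
    rw [MultilinearMap.map_sum]
    refine Finset.sum_congr rfl fun σ _ => ?_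
    rw [MultilinearMap.map_smul_univ, smul_eq_mul]
  have h2 : (fun x => M (u x)) = fun x =>
      ∑ σ : Fin r → Fin k, (∏ l, u x l (σ l)) * M fun l => Pi.single (σ l) 1 := by
    funext x
    exact key (u x)
  rw [key v, h2]
  refine tendsto_finsetSum _ fun σ _ => ?_
  refine Tendsto.mul_const _ ?_
  exact tendsto_finsetProd _ fun l _ => h l (σ l)

theorem frob_tendsto {k q : ℕ} {X : Type*} {F : Filter X}
    (φ : ExteriorAlgebra ℂ (Fin k → ℂ) →ₗ[ℂ] ℂ)
    {g : X → Fin k → Fin k → ℂ} {g0 : Fin k → Fin k → ℂ}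
    {u : X → Fin q → Fin k → ℂ} {u0 : Fin q → Fin k → ℂ}
    (hg : ∀ i t, Tendsto (fun x => g x i t) F (𝓝 (g0 i t)))
    (hu : ∀ l i, Tendsto (fun x => u x l i) F (𝓝 (u0 l i))) :
    Tendsto (fun x => φ ((∑ i, ι ℂ (g x i) * ι ℂ (Pi.single i 1)) *
      (List.ofFn fun l => ι ℂ (u x l)).prod)) F
      (𝓝 (φ ((∑ i, ι ℂ (g0 i) * ι ℂ (Pi.single i 1)) * (List.ofFn fun l => ι ℂ (u0 l)).prod))) := by
  classical
  have key : ∀ (a : Fin k → Fin k → ℂ) (w : Fin q → Fin k → ℂ),
      φ ((∑ i, ι ℂ (a i) * ι ℂ (Pi.single i 1)) * (List.ofFn fun l => ι ℂ (w l)).prod)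
      = ∑ i, (φ.compMultilinearMap (ιMulti ℂ (q + 2)).toMultilinearMap)
        (Fin.cons (a i) (Fin.cons (Pi.single i 1) w) : Fin (q + 2) → Fin k → ℂ) := by
    intro a w
    rw [Finset.sum_mul, map_sum]
    refine Finset.sum_congr rfl fun i _ => ?_
    simp only [LinearMap.compMultilinearMap_apply, AlternatingMap.coe_multilinearMap]
    rw [ιMulti_apply, List.ofFn_succ, List.ofFn_succ, List.prod_cons, List.prod_cons, mul_assoc]
    simp
  rw [key]
  simp_rw [key]
  refine tendsto_finsetSum _ fun i _ => multilinear_tendsto _ ?_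
  intro l t
  refine Fin.cases ?_ (fun l => Fin.cases ?_ (fun l => ?_) l) l
  · simpa using hg i t
  · exact tendsto_const_nhds
  · simpa using hu l t

/-- Limits of integrable families are integrable. -/
theorem frobeniusAt_of_tendsto {k q : ℕ} {A : ℕ → Forms k q} {α : Forms k q} {z : Fin k → ℂ}
    (hA : ∀ n, FrobeniusAt (A n) z)
    (h0 : ∀ j i, Tendsto (fun n => A n j i z) atTop (𝓝 (α j i z)))
    (h1 : ∀ j i t, Tendsto (fun n => grad (A n j i) z t) atTop (𝓝 (grad (α j i) z t))) :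
    FrobeniusAt α z := by
  intro j
  refine (Module.forall_dual_apply_eq_zero_iff ℂ _).mp fun φ => ?_
  have h := frob_tendsto (F := atTop) φ (g := fun n i => grad (A n j i) z)
    (g0 := fun i => grad (α j i) z) (u := fun n l i => A n l i z) (u0 := fun l i => α l i z)
    (fun i t => h1 j i t) (fun l i => h0 l i)
  have h2 : ∀ n, φ ((∑ i, ι ℂ (grad (A n j i) z) * ι ℂ (Pi.single i 1)) *
      (List.ofFn fun l => ι ℂ (fun i => A n l i z)).prod) = 0 := by
    intro n
    have := hA n j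
    unfold dForm covec at this
    rw [this, map_zero]
  simp_rw [h2] at h
  exact (tendsto_nhds_unique h tendsto_const_nhds).symm ▸ rfl

end Pool.Agent.Lib.MP_90485e_an
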