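import Pool.Agent.Lib.MP_90485e_an.Tame

/-!
# Examples: meromorphic first integrals and logarithmic forms
-/

set_option autoImplicit false

namespace Pool.Agent.Lib.MP_90485e_an

open Filter Metric Topology ExteriorAlgebra

/-- A one-form with an integrating factor satisfies the Frobenius condition. -/
theorem frobenius_mul_closed {m : ℕ} {β : Forms m 1} {P : (Fin m → ℂ) → ℂ}
    {η : Fin m → (Fin m → ℂ) → ℂ} {w : Fin m → ℂ}
    (hβ : ∀ i, β 0 i =ᶠ[𝓝 w] fun w => P w * η i w) (hP : DifferentiableAt ℂ P w)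
    (hη : ∀ i, DifferentiableAt ℂ (η i) w)
    (hc : ∀ i t, grad (η i) w t = grad (η t) w i) : FrobeniusAt β w := by
  classical
  have hval : (fun i => β 0 i w) = P w • fun i => η i w := by
    funext i
    exact (hβ i).self_of_nhds
  have hgrad : ∀ i, grad (β 0 i) w = P w • grad (η i) w + η i w • grad P w := by
    intro i
    funext t
    unfold grad
    rw [(hβ i).fderiv_eq, fderiv_fun_mul hP (hη i)]
    simp
  intro j
  have hj : j = 0 := Subsingleton.elim _ _
  subst hj
  have hd : dForm β w 0 = ι ℂ (grad P w) * ι ℂ (fun i => η i w) := by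
    unfold dForm
    have h1 : ∀ i, ι ℂ (grad (β 0 i) w) * ι ℂ (Pi.single i 1 : Fin m → ℂ)
        = P w • (ι ℂ (fun t => grad (η i) w t) * ι ℂ (Pi.single i 1 : Fin m → ℂ))
          + ι ℂ (grad P w) * ι ℂ (η i w • (Pi.single i 1 : Fin m → ℂ)) := by
      intro i
      rw [hgrad i, map_add, map_smul, map_smul, add_mul, smul_mul_assoc, smul_mul_assoc,
        map_smul, mul_smul_comm]
    rw [Finset.sum_congr rfl fun i _ => h1 i, Finset.sum_add_distrib, ← Finset.smul_sum,
      sum_symm_eq_zero (fun t i => grad (η i) w t) fun t i => hc i t, smul_zero, zero_add,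
      ← Finset.mul_sum, ← map_sum]
    congr 2
    funext t
    simp [Finset.sum_apply, Pi.single_apply]
  have hprod : (List.ofFn fun l => covec β w l).prod = P w • ι ℂ (fun i => η i w) := by
    simp only [List.ofFn_succ, List.ofFn_zero, List.prod_cons, List.prod_nil, mul_one]
    unfold covec
    rw [hval, map_smul]
  rw [hd, hprod, mul_smul_comm, mul_assoc, ι_sq_zero, mul_zero, smul_zero]

/-- The polynomial one-form `∑ i, c i (∏_{l ≠ i} w_l) dw_i`. -/
noncomputable def logForm {N : ℕ} (c : Fin N → ℂ) : Forms N 1 :=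
  fun _ i w => c i * ∏ l ∈ Finset.univ.erase i, w l

theorem isPoly_logForm {N : ℕ} (c : Fin N → ℂ) : IsPoly (logForm c) := by
  intro j i
  refine ⟨MvPolynomial.C (c i) * ∏ l ∈ Finset.univ.erase i, MvPolynomial.X l, ?_⟩
  funext w
  simp [logForm]

theorem frobenius_logForm_generic {N : ℕ} (c : Fin N → ℂ) {w : Fin N → ℂ} (hw : ∀ l, w l ≠ 0) :
    FrobeniusAt (logForm c) w := by
  classical
  have hη : ∀ i, HasFDerivAt (fun w : Fin N → ℂ => c i * (w i)⁻¹)
      ((c i * -(w i ^ 2)⁻¹) • (ContinuousLinearMap.proj i : (Fin N → ℂ) →L[ℂ] ℂ)) w := by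
    intro i
    have h1 : HasDerivAt (fun x : ℂ => c i * x⁻¹) (c i * -(w i ^ 2)⁻¹) (w i) :=
      (hasDerivAt_inv (hw i)).const_mul (c i)
    exact HasDerivAt.comp_hasFDerivAt (h₂ := fun x : ℂ => c i * x⁻¹)
      (f := fun w : Fin N → ℂ => w i) w h1 (hasFDerivAt_apply i w)
  refine frobenius_mul_closed (P := fun w => ∏ l, w l) (η := fun i w => c i * (w i)⁻¹) ?_ ?_
    (fun i => (hη i).differentiableAt) ?_
  · intro i
    have h1 : ∀ᶠ w' in 𝓝 w, w' i ≠ 0 :=
      (continuous_apply i).continuousAt.eventually_ne (hw i)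
    filter_upwards [h1] with w' hw'
    have h2 : ∏ l, w' l = w' i * ∏ l ∈ Finset.univ.erase i, w' l :=
      (Finset.mul_prod_erase Finset.univ w' (Finset.mem_univ i)).symm
    show c i * ∏ l ∈ Finset.univ.erase i, w' l = (∏ l, w' l) * (c i * (w' i)⁻¹)
    rw [h2]
    field_simp
  · have := contDiff_eval (n := 1) (∏ l : Fin N, (MvPolynomial.X l : MvPolynomial (Fin N) ℂ))
    have h2 : (fun z : Fin N → ℂ => MvPolynomial.eval z
        (∏ l : Fin N, (MvPolynomial.X l : MvPolynomial (Fin N) ℂ))) = fun w => ∏ l, w l := by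
      funext w
      simp
    rw [h2] at this
    exact (this.differentiable (by norm_num)) w
  · intro i t
    unfold grad
    rw [(hη i).fderiv, (hη t).fderiv]
    by_cases hit : i = t
    · subst hit
      rfl
    · simp [hit, Ne.symm hit]

theorem frobenius_logForm {N : ℕ} (c : Fin N → ℂ) (w : Fin N → ℂ) :
    FrobeniusAt (logForm c) w := by
  classical
  have hpoly := isPoly_logForm c
  choose p hp using hpoly
  intro j
  refine (Module.forall_dual_apply_eq_zero_iff ℂ _).mp fun φ => ?_
  have hlin : Tendsto (fun t : ℂ => (fun l => w l + t : Fin N → ℂ)) (𝓝[≠] 0) (𝓝 w) := by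
    refine Tendsto.mono_left ?_ nhdsWithin_le_nhds
    have : Continuous fun t : ℂ => (fun l => w l + t : Fin N → ℂ) := by fun_prop
    simpa using this.tendsto 0
  have h := frob_tendsto (F := 𝓝[≠] (0 : ℂ)) φ
    (g := fun t i => grad (logForm c j i) (fun l => w l + t)) (g0 := fun i => grad (logForm c j i) w)
    (u := fun t l i => logForm c l i (fun l => w l + t)) (u0 := fun l i => logForm c l i w)
    (fun i s => ?_) (fun l i => ?_)
  · have hev : ∀ᶠ t in 𝓝[≠] (0 : ℂ), ∀ l, w l + t ≠ 0 := by
      rw [eventually_all]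
      intro l
      by_cases hl : w l = 0
      · filter_upwards [self_mem_nhdsWithin] with t ht
        rw [hl, zero_add]
        exact ht
      · refine eventually_nhdsWithin_of_eventually_nhds ?_
        have : ContinuousAt (fun t : ℂ => w l + t) 0 := by fun_prop
        exact this.eventually_ne (by simpa using hl)
    have h2 : (fun t : ℂ => φ ((∑ i, ι ℂ (grad (logForm c j i) fun l => w l + t) *
        ι ℂ (Pi.single i 1)) * (List.ofFn fun l => ι ℂ (fun i => logForm c l i fun l => w l + t)).prod))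
        =ᶠ[𝓝[≠] 0] fun _ => 0 := by
      filter_upwards [hev] with t ht
      have := frobenius_logForm_generic c ht j
      unfold dForm covec at this
      rw [this, map_zero]
    have h3 := h.congr' h2
    exact (tendsto_nhds_unique h3 tendsto_const_nhds)
  · simp only [hp, grad_eval]
    exact ((MvPolynomial.continuous_eval _).tendsto _).comp hlin
  · simp only [hp]
    exact ((MvPolynomial.continuous_eval _).tendsto _).comp hlin

/-- `q` forms in `q + 1` variables: `w_0 dw_{l+1} - w_{l+1} dw_0`. -/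
noncomputable def ratForm (q : ℕ) : Forms (q + 1) q :=
  fun l i w => w 0 * (Pi.single l.succ 1 : Fin (q + 1) → ℂ) i
    - w l.succ * (Pi.single 0 1 : Fin (q + 1) → ℂ) i

theorem isPoly_ratForm (q : ℕ) : IsPoly (ratForm q) := by
  intro l i
  refine ⟨MvPolynomial.X 0 * MvPolynomial.C ((Pi.single l.succ 1 : Fin (q + 1) → ℂ) i)
    - MvPolynomial.X l.succ * MvPolynomial.C ((Pi.single 0 1 : Fin (q + 1) → ℂ) i), ?_⟩
  funext w
  simp [ratForm]

/-- Foliations with meromorphic first integrals `u_l / v`. -/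
theorem polyLimit_rational {k q : ℕ} {R : ℝ} {h : Fin q → Fin q → (Fin k → ℂ) → ℂ}
    {u : Fin q → (Fin k → ℂ) → ℂ} {v : (Fin k → ℂ) → ℂ}
    (hh : ∀ j l, DifferentiableOn ℂ (h j l) (polydisc k R))
    (hu : ∀ l, DifferentiableOn ℂ (u l) (polydisc k R)) (hv : DifferentiableOn ℂ v (polydisc k R)) :
    PolyLimit (polydisc k R)
      (fun j i z => ∑ l, h j l z * (v z * grad (u l) z i - u l z * grad v z i)) := by
  have h1 := polyLimit_pull (R := R) (Ω := Set.univ) isOpen_univ (β := ratForm q)
    ⟨fun _ => ratForm q, fun _ => isPoly_ratForm q, fun _ z => frobenius_of_dim le_rfl _ z,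
      convergesOn_const _ _⟩ hh (Φ := Fin.cons v u) ?_ fun z _ => Set.mem_univ _
  · have h2 : pull h (Fin.cons v u : Fin (q + 1) → (Fin k → ℂ) → ℂ) (ratForm q)
        = fun j i z => ∑ l, h j l z * (v z * grad (u l) z i - u l z * grad v z i) := by
      funext j i z
      unfold pull ratForm
      refine Finset.sum_congr rfl fun l _ => ?_
      congr 1
      rw [Fin.sum_univ_succ]
      simp [Pi.single_apply, Fin.succ_ne_zero]
      ring
    rw [← h2]
    exact h1
  · intro s
    refine Fin.cases ?_ (fun l => ?_) s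
    · simpa using hv
    · simpa using hu l

/-- Logarithmic one-forms. -/
theorem polyLimit_log {k N : ℕ} {R : ℝ} (c : Fin N → ℂ) {h : (Fin k → ℂ) → ℂ}
    {f : Fin N → (Fin k → ℂ) → ℂ} (hh : DifferentiableOn ℂ h (polydisc k R))
    (hf : ∀ l, DifferentiableOn ℂ (f l) (polydisc k R)) :
    PolyLimit (q := 1) (polydisc k R)
      (fun _ i z => h z * ∑ s, c s * (∏ l ∈ Finset.univ.erase s, f l z) * grad (f s) z i) := by
  have h1 := polyLimit_pull (R := R) (Ω := Set.univ) isOpen_univ (β := logForm c)
    ⟨fun _ => logForm c, fun _ => isPoly_logForm c, fun _ z => frobenius_logForm c z,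
      convergesOn_const _ _⟩ (h := fun _ _ => h) (fun _ _ => hh) (Φ := f) hf
      fun z _ => Set.mem_univ _
  have h2 : pull (fun _ _ => h) f (logForm c)
      = fun _ i z => h z * ∑ s, c s * (∏ l ∈ Finset.univ.erase s, f l z) * grad (f s) z i := by
    funext j i z
    unfold pull logForm
    simp
  rw [← h2]
  exact h1

end Pool.Agent.Lib.MP_90485e_an
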