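import Pool.Agent.Lib.MP_90485e_an.Enl

/-!
# The question is equivalent to the enlargement of one coordinate disc
-/

set_option autoImplicit false

namespace Pool.Agent.Lib.MP_90485e_an

open Filter Metric Topology ExteriorAlgebra

/-- The open polydisc with the radii `R i`. -/
def polyR {k : ℕ} (R : Fin k → ℝ) : Set (Fin k → ℂ) := {z | ∀ i, ‖z i‖ < R i}

/-- Every foliation of the unit polydisc is, on every smaller polydisc, arbitrarily close to a
foliation of the product of the disc of radius `ρ` in the coordinate `i₀` and of unit discs in the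
other coordinates. -/
def EnlargeOne (k q : ℕ) (i₀ : Fin k) (ρ : ℝ) : Prop :=
  ∀ α : Forms k q, IsFoliation (polydisc k 1) α → ∀ r < 1, ∀ ε > 0,
    ∃ β : Forms k q, IsFoliation (polyR (Function.update (fun _ => 1) i₀ ρ)) β ∧
      ∀ j i, ∀ z ∈ polydisc k r, ‖β j i z - α j i z‖ < ε

/-- a coordinate change `z ↦ (c_s z_{σ s})_s` -/
noncomputable def chg {k : ℕ} (c : Fin k → ℝ) (σ : Equiv.Perm (Fin k)) :
    Fin k → (Fin k → ℂ) → ℂ := fun s z => (c s : ℂ) * z (σ s)

/-- the pull-back under the coordinate change -/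
noncomputable def tr {k q : ℕ} (c : Fin k → ℝ) (σ : Equiv.Perm (Fin k)) (α : Forms k q) :
    Forms k q :=
  fun j i z => (c (σ.symm i) : ℂ) * α j (σ.symm i) (fun s => chg c σ s z)

theorem grad_chg {k : ℕ} (c : Fin k → ℝ) (σ : Equiv.Perm (Fin k)) (s : Fin k) (z : Fin k → ℂ)
    (i : Fin k) : grad (chg c σ s) z i = if s = σ.symm i then (c s : ℂ) else 0 := by
  have h1 : HasFDerivAt (chg c σ s)
      ((c s : ℂ) • (ContinuousLinearMap.proj (σ s) : (Fin k → ℂ) →L[ℂ] ℂ)) z :=
    (hasFDerivAt_apply (σ s) z).const_mul (c s : ℂ)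
  unfold grad
  rw [h1.fderiv]
  by_cases h : s = σ.symm i
  · subst h
    simp
  · have h2 : σ s ≠ i := fun h3 => h (by rw [← h3]; simp)
    simp [h, h2]

theorem contDiff_chg {k : ℕ} (c : Fin k → ℝ) (σ : Equiv.Perm (Fin k)) (s : Fin k)
    {n : WithTop ℕ∞} : ContDiff ℂ n (chg c σ s) :=
  contDiff_const.mul (contDiff_apply ℂ ℂ (σ s))

theorem tr_eq_pull {k q : ℕ} (c : Fin k → ℝ) (σ : Equiv.Perm (Fin k)) (α : Forms k q) :
    tr c σ α = pull (fun j l _ => if j = l then 1 else 0) (chg c σ) α := by
  funext j i z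
  unfold tr pull
  simp only [ite_mul, one_mul, zero_mul, Finset.sum_ite_eq, Finset.mem_univ, if_true, grad_chg,
    mul_ite, mul_zero, Finset.sum_ite_eq']
  ring

/-- transport of foliations -/
theorem foliation_tr {k q : ℕ} {α : Forms k q} {c : Fin k → ℝ} (hc : ∀ s, 0 < c s)
    (σ : Equiv.Perm (Fin k)) {S T : Fin k → ℝ} (hST : ∀ s, c s * S (σ s) = T s)
    (h : IsFoliation (polyR T) α) : IsFoliation (polyR S) (tr c σ α) := by
  obtain ⟨h1, ⟨z0, hz0, hli⟩, h3⟩ := h
  have hmem : ∀ z ∈ polyR S, (fun s => chg c σ s z) ∈ polyR T := by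
    intro z hz s
    unfold chg
    rw [norm_mul, Complex.norm_real, Real.norm_of_nonneg (hc s).le, ← hST]
    exact mul_lt_mul_of_pos_left (hz (σ s)) (hc s)
  have hopen : IsOpen (polyR T) := by
    have : polyR T = ⋂ i, {z : Fin k → ℂ | ‖z i‖ < T i} := by
      ext z
      simp [polyR]
    rw [this]
    exact isOpen_iInter_of_finite fun i => isOpen_lt (by fun_prop) continuous_const
  have hc' : ∀ s, (c s : ℂ) ≠ 0 := fun s => by exact_mod_cast (hc s).ne'
  have hmap : Differentiable ℂ fun z : Fin k → ℂ => (fun s => chg c σ s z : Fin k → ℂ) := by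
    rw [differentiable_pi]
    exact fun s => (contDiff_chg c σ s (n := 1)).differentiable (by norm_num)
  refine ⟨fun j i => ?_, ?_, fun z hz => ?_⟩
  · unfold tr
    refine DifferentiableOn.const_mul ?_ _
    exact (h1 j (σ.symm i)).comp hmap.differentiableOn hmem
  · refine ⟨fun i => (c (σ.symm i) : ℂ)⁻¹ * z0 (σ.symm i), fun i => ?_, ?_⟩
    · rw [norm_mul, norm_inv, Complex.norm_real, Real.norm_of_nonneg (hc _).le,
        inv_mul_lt_iff₀ (hc _)]
      have := hST (σ.symm i)
      rw [Equiv.apply_symm_apply] at this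
      rw [this]
      exact hz0 _
    · have hz1 : (fun s => chg c σ s fun i => (c (σ.symm i) : ℂ)⁻¹ * z0 (σ.symm i)) = z0 := by
        funext s
        simp only [chg, Equiv.symm_apply_apply]
        rw [mul_inv_cancel_left₀ (hc' s)]
      let L : (Fin k → ℂ) →ₗ[ℂ] (Fin k → ℂ) :=
        { toFun := fun v i => (c (σ.symm i) : ℂ) * v (σ.symm i)
          map_add' := fun v w => by
            funext i
            simp [mul_add]
          map_smul' := fun a v => by
            funext i
            simp
            ring }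
      have hL : LinearMap.ker L = ⊥ := by
        rw [LinearMap.ker_eq_bot']
        intro v hv
        funext s
        have := congrFun hv (σ s)
        simp only [L, LinearMap.coe_mk, AddHom.coe_mk, Equiv.symm_apply_apply, Pi.zero_apply,
          mul_eq_zero] at this
        exact this.resolve_left (hc' s)
      have h4 := hli.map' L hL
      have h5 : (fun j i => tr c σ α j i fun i => (c (σ.symm i) : ℂ)⁻¹ * z0 (σ.symm i))
          = L ∘ fun j i => α j i z0 := by
        funext j i
        unfold tr
        rw [hz1]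
        rfl
      rw [h5]
      exact h4
  · rw [tr_eq_pull]
    refine frobenius_pull _ _ _ z (fun j l => differentiableAt_const _)
      (fun s => contDiff_chg c σ s) (fun l s => ?_) (h3 _ (hmem z hz))
    exact (h1 l s _ (hmem z hz)).differentiableAt (hopen.mem_nhds (hmem z hz))

theorem polydisc_eq {k : ℕ} (r : ℝ) : polydisc k r = polyR fun _ => r := rfl

/-- Enlargement of one coordinate disc of an arbitrary polydisc. -/
theorem enlarge_coord {k q : ℕ} {i₀ : Fin k} {ρ : ℝ} (h : EnlargeOne k q i₀ ρ) (R : Fin k → ℝ)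
    (hR : ∀ i, 0 < R i) (i : Fin k) {α : Forms k q} (hα : IsFoliation (polyR R) α) {r : ℝ}
    (hr : r < 1) {ε : ℝ} (hε : 0 < ε) :
    ∃ β : Forms k q, IsFoliation (polyR (Function.update R i (ρ * R i))) β ∧
      ∀ j i, ∀ z ∈ polyR (fun i => r * R i), ‖β j i z - α j i z‖ < ε := by
  classical
  set σ : Equiv.Perm (Fin k) := Equiv.swap i₀ i with hσ
  have hσs : σ.symm = σ := Equiv.symm_swap _ _
  have hσσ : ∀ s, σ (σ s) = s := fun s => by
    have := σ.symm_apply_apply s
    rwa [hσs] at this
  obtain ⟨C, hC0, hC⟩ : ∃ C > 0, ∀ i, (R i)⁻¹ ≤ C := by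
    refine ⟨1 + ∑ i, (R i)⁻¹, ?_, fun i => ?_⟩
    · have : 0 ≤ ∑ i, (R i)⁻¹ := Finset.sum_nonneg fun i _ => (inv_pos.mpr (hR i)).le
      linarith
    · have := Finset.single_le_sum (f := fun i => (R i)⁻¹)
        (fun i _ => (inv_pos.mpr (hR i)).le) (Finset.mem_univ i)
      linarith
  -- to the unit polydisc
  have h1 : IsFoliation (polydisc k 1) (tr (fun s => R s) σ α) := by
    rw [polydisc_eq]
    exact foliation_tr hR σ (fun s => mul_one _) hα
  obtain ⟨β, hβ, hβα⟩ := h _ h1 r hr (ε / C) (by positivity)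
  -- and back
  refine ⟨tr (fun s => (R (σ s))⁻¹) σ β, ?_, fun j t z hz => ?_⟩
  · refine foliation_tr (fun s => inv_pos.mpr (hR _)) σ (fun s => ?_) hβ
    by_cases hs : s = i₀
    · subst hs
      rw [Function.update_self, hσ, Equiv.swap_apply_left, Function.update_self]
      have := (hR i).ne'
      field_simp
    · have h2 : σ s ≠ i := by
        intro h3
        apply hs
        have : σ i₀ = i := by rw [hσ]; exact Equiv.swap_apply_left _ _
        exact σ.injective (h3.trans this.symm)
      rw [Function.update_of_ne h2, Function.update_of_ne hs]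
      exact inv_mul_cancel₀ (hR _).ne'
  · have hz' : (fun s => chg (fun s => (R (σ s))⁻¹) σ s z) ∈ polydisc k r := by
      intro s
      unfold chg
      rw [norm_mul, Complex.norm_real, Real.norm_of_nonneg (inv_pos.mpr (hR _)).le,
        inv_mul_lt_iff₀ (hR _), mul_comm]
      exact hz (σ s)
    have h2 := hβα j (σ.symm t) _ hz'
    have h3 : tr (fun s => R s) σ α j (σ.symm t) (fun s => chg (fun s => (R (σ s))⁻¹) σ s z)
        = (R t : ℂ) * α j t z := by
      unfold tr
      have h4 : (fun s => chg (fun s => R s) σ s fun s => chg (fun s => (R (σ s))⁻¹) σ s z) = z := by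
        funext s
        simp only [chg]
        rw [hσσ, ← mul_assoc, ← Complex.ofReal_mul, mul_inv_cancel₀ (hR s).ne']
        simp
      rw [h4, hσs, hσσ]
    rw [h3] at h2
    unfold tr
    have h5 : ((R (σ (σ.symm t)))⁻¹ : ℝ) = (R t)⁻¹ := by rw [Equiv.apply_symm_apply]
    simp only [h5]
    have hRt : (R t : ℂ) ≠ 0 := by exact_mod_cast (hR t).ne'
    have h6 : (((R t)⁻¹ : ℝ) : ℂ) * β j (σ.symm t) (fun s => chg (fun s => (R (σ s))⁻¹) σ s z)
        - α j t z = (((R t)⁻¹ : ℝ) : ℂ) * (β j (σ.symm t)
          (fun s => chg (fun s => (R (σ s))⁻¹) σ s z) - (R t : ℂ) * α j t z) := by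
      rw [mul_sub, ← mul_assoc]
      congr 1
      rw [Complex.ofReal_inv, inv_mul_cancel₀ hRt, one_mul]
    rw [h6, norm_mul, Complex.norm_real, Real.norm_of_nonneg (inv_pos.mpr (hR _)).le]
    calc (R t)⁻¹ * _ ≤ C * ‖β j (σ.symm t) (fun s => chg (fun s => (R (σ s))⁻¹) σ s z)
          - (R t : ℂ) * α j t z‖ := mul_le_mul_of_nonneg_right (hC t) (norm_nonneg _)
      _ < C * (ε / C) := mul_lt_mul_of_pos_left h2 hC0
      _ = ε := by field_simp

/-- **Reduction to one coordinate.** -/
theorem questionOne_iff_one (k q : ℕ) (i₀ : Fin k) {ρ : ℝ} (hρ : 1 < ρ) :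
    QuestionOne k q ↔ EnlargeOne k q i₀ ρ := by
  classical
  constructor
  · intro hQ α hα r hr ε hε
    obtain ⟨A, hAd, hAF, hAc⟩ := hQ α hα
    obtain ⟨_, ⟨z0, hz0, hli⟩, _⟩ := hα
    have h1 : Tendsto (fun n => (fun j i => A n j i z0 : Fin q → Fin k → ℂ)) atTop
        (𝓝 (fun j i => α j i z0)) := by
      rw [tendsto_pi_nhds]
      intro j
      rw [tendsto_pi_nhds]
      intro i
      exact (hAc j i).tendsto_at hz0
    have h2 : ∀ᶠ n in atTop, LinearIndependent ℂ (fun j i => A n j i z0 : Fin q → Fin k → ℂ) :=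
      h1.eventually (isOpen_setOfPred_linearIndependent.mem_nhds hli)
    obtain ⟨n, hn1, hn2⟩ := (h2.and (exists_near hAc hr hε)).exists
    refine ⟨A n, ⟨fun j i => (hAd n j i).mono (Set.subset_univ _), ⟨z0, fun i => ?_, hn1⟩,
      fun z _ => hAF n z⟩, hn2⟩
    refine (hz0 i).trans_le ?_
    by_cases hi : i = i₀
    · subst hi
      rw [Function.update_self]
      exact hρ.le
    · rw [Function.update_of_ne hi]
  · intro hE
    rw [questionOne_iff k q hρ]
    intro α hα r hr ε hε
    -- enlarge the coordinates one after the other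
    have key : ∀ s : Finset (Fin k), ∀ δ > 0, ∃ β : Forms k q,
        IsFoliation (polyR fun i => if i ∈ s then ρ else 1) β ∧
          ∀ j i, ∀ z ∈ polydisc k r, ‖β j i z - α j i z‖ < δ := by
      intro s
      induction s using Finset.induction_on with
      | empty =>
        intro δ hδ
        refine ⟨α, ?_, fun j i z _ => by simpa using hδ⟩
        simpa [← polydisc_eq] using hα
      | insert a s ha ih =>
        intro δ hδ
        obtain ⟨β, hβ, hβα⟩ := ih (δ / 2) (by positivity)
        have hR : ∀ i, 0 < (if i ∈ s then ρ else 1) := by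
          intro i
          split_ifs
          · linarith
          · exact one_pos
        obtain ⟨γ, hγ, hγβ⟩ := enlarge_coord hE (fun i => if i ∈ s then ρ else 1) hR a hβ
          (r := max r 0) (max_lt hr one_pos) (ε := δ / 2) (by positivity)
        refine ⟨γ, ?_, fun j i z hz => ?_⟩
        · have h1 : Function.update (fun i => if i ∈ s then ρ else 1) a
              (ρ * if a ∈ s then ρ else 1) = fun i => if i ∈ insert a s then ρ else 1 := by
            funext i
            by_cases hi : i = a
            · subst hi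
              simp [ha]
            · simp [hi]
          rw [← h1]
          exact hγ
        · have h2 : z ∈ polyR (fun i => max r 0 * if i ∈ s then ρ else 1) := by
            intro i
            have h3 := hz i
            have h4 : 0 < r := (norm_nonneg _).trans_lt h3
            have h5 : max r 0 = r := max_eq_left h4.le
            show ‖z i‖ < max r 0 * if i ∈ s then ρ else 1
            rw [h5]
            split_ifs
            · nlinarith
            · linarith
          have h6 := hγβ j i z h2
          have h7 := hβα j i z hz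
          calc ‖γ j i z - α j i z‖ = ‖(γ j i z - β j i z) + (β j i z - α j i z)‖ := by ring_nf
            _ ≤ ‖γ j i z - β j i z‖ + ‖β j i z - α j i z‖ := norm_add_le _ _
            _ < δ / 2 + δ / 2 := add_lt_add h6 h7
            _ = δ := by ring
    obtain ⟨β, hβ, hβα⟩ := key Finset.univ ε hε
    refine ⟨β, ?_, hβα⟩
    simpa [← polydisc_eq] using hβ

end Pool.Agent.Lib.MP_90485e_an
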