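import Pool.Agent.Lib.MP_90485e_an.Alg

/-!
# The Frobenius condition is preserved by pull-back and by multiplication with a matrix
-/

set_option autoImplicit false

namespace Pool.Agent.Lib.MP_90485e_an

open ExteriorAlgebra

/-- a symmetric tensor has no alternating part -/
theorem sum_symm_eq_zero {k : ℕ} (S : Fin k → Fin k → ℂ) (hS : ∀ t i, S t i = S i t) :
    ∑ i, ι ℂ (fun t => S t i) * ι ℂ (Pi.single i 1 : Fin k → ℂ) = 0 := by
  classical
  have h1 : ∀ i, (fun t => S t i) = ∑ t, S t i • (Pi.single t 1 : Fin k → ℂ) := by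
    intro i
    ext t
    simp [Finset.sum_apply, Pi.single_apply]
  have h2 : ∑ i, ι ℂ (fun t => S t i) * ι ℂ (Pi.single i 1 : Fin k → ℂ)
      = ∑ i, ∑ t, S t i • (ι ℂ (Pi.single t 1 : Fin k → ℂ) * ι ℂ (Pi.single i 1 : Fin k → ℂ)) := by
    refine Finset.sum_congr rfl fun i _ => ?_
    rw [h1 i, map_sum, Finset.sum_mul]
    refine Finset.sum_congr rfl fun t _ => ?_
    rw [map_smul, smul_mul_assoc]
  rw [h2]
  set X := ∑ i, ∑ t, S t i • (ι ℂ (Pi.single t 1 : Fin k → ℂ) * ι ℂ (Pi.single i 1 : Fin k → ℂ))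
    with hX
  have h3 : X + X = 0 := by
    have h4 : X = ∑ i, ∑ t, S t i •
        (ι ℂ (Pi.single i 1 : Fin k → ℂ) * ι ℂ (Pi.single t 1 : Fin k → ℂ)) := by
      rw [hX, Finset.sum_comm]
      refine Finset.sum_congr rfl fun i _ => Finset.sum_congr rfl fun t _ => ?_
      rw [hS]
    nth_rewrite 2 [h4]
    rw [hX, ← Finset.sum_add_distrib]
    refine Finset.sum_eq_zero fun i _ => ?_
    rw [← Finset.sum_add_distrib]
    refine Finset.sum_eq_zero fun t _ => ?_
    rw [← smul_add, ι_add_mul_swap, smul_zero]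
  have h5 : (2 : ℂ) • X = 0 := by rw [two_smul, h3]
  exact (smul_eq_zero.mp h5).resolve_left two_ne_zero

/-- the pull-back of covectors with the Jacobian of `Φ` at `z` -/
noncomputable def jac {k m : ℕ} (Φ : Fin m → (Fin k → ℂ) → ℂ) (z : Fin k → ℂ) :
    (Fin m → ℂ) →ₗ[ℂ] (Fin k → ℂ) where
  toFun ω := fun i => ∑ s, ω s * grad (Φ s) z i
  map_add' ω ω' := by
    ext i
    simp [add_mul, Finset.sum_add_distrib]
  map_smul' c ω := by
    ext i
    simp [Finset.mul_sum, mul_assoc]

theorem jac_single {k m : ℕ} (Φ : Fin m → (Fin k → ℂ) → ℂ) (z : Fin k → ℂ) (s : Fin m) :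
    jac Φ z (Pi.single s 1) = grad (Φ s) z := by
  ext i
  simp [jac, Pi.single_apply]

/-- symmetry of the second derivative -/
theorem grad_grad_symm {k : ℕ} {f : (Fin k → ℂ) → ℂ} (hf : ContDiff ℂ 2 f) (z : Fin k → ℂ)
    (t i : Fin k) : grad (fun z => grad f z i) z t = grad (fun z => grad f z t) z i := by
  have hs : IsSymmSndFDerivAt ℂ f z := by
    refine (hf.contDiffAt).isSymmSndFDerivAt ?_
    simp
  have hd : DifferentiableAt ℂ (fderiv ℂ f) z :=
    ((hf.fderiv_right (m := 1) (by norm_num)).differentiable (by norm_num)) z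
  have h1 : ∀ a b : Fin k, grad (fun z => grad f z a) z b
      = fderiv ℂ (fderiv ℂ f) z (Pi.single b 1) (Pi.single a 1) := by
    intro a b
    unfold grad
    have : fderiv ℂ (fun z => (fderiv ℂ f z) (Pi.single a 1)) z
        = (ContinuousLinearMap.apply ℂ ℂ (Pi.single a 1 : Fin k → ℂ)).comp
          (fderiv ℂ (fderiv ℂ f) z) := by
      have h := ((ContinuousLinearMap.apply ℂ ℂ (Pi.single a 1 : Fin k → ℂ)).hasFDerivAt.comp z
        hd.hasFDerivAt).fderiv
      exact h
    rw [this]
    rfl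
  rw [h1, h1]
  exact hs _ _

/-- The coefficients of a pull-back have the expected gradient. -/
theorem grad_pull {k m q : ℕ} (h : Fin q → Fin q → (Fin k → ℂ) → ℂ)
    (Φ : Fin m → (Fin k → ℂ) → ℂ) (β : Forms m q) (z : Fin k → ℂ)
    (hh : ∀ j l, DifferentiableAt ℂ (h j l) z) (hΦ : ∀ s, ContDiff ℂ 2 (Φ s))
    (hβ : ∀ l s, DifferentiableAt ℂ (β l s) (fun s' => Φ s' z)) (j : Fin q) (i : Fin k) :
    grad (pull h Φ β j i) z = ∑ l, ((∑ s, β l s (fun s' => Φ s' z) * grad (Φ s) z i) •
      grad (h j l) z + h j l z • ∑ s, (β l s (fun s' => Φ s' z) • grad (fun z => grad (Φ s) z i) z +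
        grad (Φ s) z i • jac Φ z (grad (β l s) (fun s' => Φ s' z)))) := by
  classical
  set w : Fin m → ℂ := fun s' => Φ s' z with hw
  set D : (Fin k → ℂ) →L[ℂ] (Fin m → ℂ) := ContinuousLinearMap.pi fun s => fderiv ℂ (Φ s) z
    with hD
  have hΦd : ∀ s, DifferentiableAt ℂ (Φ s) z := fun s =>
    ((hΦ s).differentiable (by norm_num)) z
  have hmap : HasFDerivAt (fun z => (fun s' => Φ s' z : Fin m → ℂ)) D z :=
    hasFDerivAt_pi.mpr fun s => (hΦd s).hasFDerivAt
  have hb : ∀ l s, HasFDerivAt (fun z => β l s (fun s' => Φ s' z)) ((fderiv ℂ (β l s) w).comp D) z :=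
    fun l s => HasFDerivAt.comp z (hβ l s).hasFDerivAt hmap
  have hg : ∀ s, HasFDerivAt (fun z => grad (Φ s) z i) (fderiv ℂ (fun z => grad (Φ s) z i) z) z := by
    intro s
    refine DifferentiableAt.hasFDerivAt ?_
    unfold grad
    have hd : DifferentiableAt ℂ (fderiv ℂ (Φ s)) z :=
      (((hΦ s).fderiv_right (m := 1) (by norm_num)).differentiable (by norm_num)) z
    exact hd.clm_apply (differentiableAt_const _)
  have hs : ∀ l, HasFDerivAt (fun z => ∑ s, β l s (fun s' => Φ s' z) * grad (Φ s) z i)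
      (∑ s, (β l s w • fderiv ℂ (fun z => grad (Φ s) z i) z + grad (Φ s) z i •
        ((fderiv ℂ (β l s) w).comp D))) z := by
    intro l
    have := HasFDerivAt.fun_sum (u := Finset.univ) fun s (_ : s ∈ Finset.univ) => (hb l s).mul (hg s)
    exact this
  have hp : HasFDerivAt (pull h Φ β j i) (∑ l, (h j l z • (∑ s, (β l s w •
      fderiv ℂ (fun z => grad (Φ s) z i) z + grad (Φ s) z i • ((fderiv ℂ (β l s) w).comp D))) +
      (∑ s, β l s w * grad (Φ s) z i) • fderiv ℂ (h j l) z)) z := by
    have := HasFDerivAt.fun_sum (u := Finset.univ)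
      fun l (_ : l ∈ Finset.univ) => (hh j l).hasFDerivAt.mul (hs l)
    exact this
  have hDt : ∀ t : Fin k, D (Pi.single t 1) = fun s => grad (Φ s) z t := by
    intro t
    ext s
    simp [hD, grad]
  have hcomp : ∀ l s (t : Fin k), fderiv ℂ (β l s) w (D (Pi.single t 1))
      = jac Φ z (grad (β l s) w) t := by
    intro l s t
    rw [hDt]
    have h1 : (fun s' => grad (Φ s') z t) = ∑ s', grad (Φ s') z t • (Pi.single s' 1 : Fin m → ℂ) := by
      ext s'
      simp [Finset.sum_apply, Pi.single_apply]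
    rw [h1, map_sum]
    simp only [jac, LinearMap.coe_mk, AddHom.coe_mk]
    refine Finset.sum_congr rfl fun s' _ => ?_
    rw [map_smul, smul_eq_mul, mul_comm]
    rfl
  ext t
  unfold grad at *
  rw [hp.fderiv]
  simp only [_root_.sum_apply, _root_.add_apply,
    _root_.smul_apply, ContinuousLinearMap.comp_apply, Finset.sum_apply, Pi.add_apply,
    Pi.smul_apply, smul_eq_mul]
  refine Finset.sum_congr rfl fun l _ => ?_
  rw [add_comm]
  congr 1
  congr 1
  refine Finset.sum_congr rfl fun s _ => ?_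
  rw [hcomp]

/-- Pull-backs of integrable families are integrable. -/
theorem frobenius_pull {k m q : ℕ} (h : Fin q → Fin q → (Fin k → ℂ) → ℂ)
    (Φ : Fin m → (Fin k → ℂ) → ℂ) (β : Forms m q) (z : Fin k → ℂ)
    (hh : ∀ j l, DifferentiableAt ℂ (h j l) z) (hΦ : ∀ s, ContDiff ℂ 2 (Φ s))
    (hβ : ∀ l s, DifferentiableAt ℂ (β l s) (fun s' => Φ s' z))
    (hF : FrobeniusAt β (fun s' => Φ s' z)) : FrobeniusAt (pull h Φ β) z := by
  classical
  intro j
  set w : Fin m → ℂ := fun s' => Φ s' z with hw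
  set J := jac Φ z with hJ
  set b : Fin q → Fin m → ℂ := fun l s => β l s w with hb
  have hu : ∀ l, J (b l) = fun i => ∑ s, β l s w * grad (Φ s) z i := fun l => rfl
  -- the product
  have hcov : ∀ l, covec (pull h Φ β) z l = ι ℂ (∑ l', h l l' z • J (b l')) := by
    intro l
    unfold covec
    congr 1
    ext i
    simp only [pull, Finset.sum_apply, Pi.smul_apply, smul_eq_mul, hu]
    rfl
  obtain ⟨c, hc⟩ := exists_smul (fun l => J (b l)) (fun l l' => h l l' z)
  have hprod : (List.ofFn fun l => covec (pull h Φ β) z l).prod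
      = c • ιMulti ℂ q (fun l => J (b l)) := by
    rw [← hc, ιMulti_apply]
    congr 2
    funext l
    exact hcov l
  have hmapprod : ιMulti ℂ q (fun l => J (b l))
      = ExteriorAlgebra.map J ((List.ofFn fun l => covec β w l).prod) := by
    rw [ιMulti_apply, map_list_prod, List.map_ofFn]
    congr 2
    funext l
    simp only [Function.comp, covec, map_apply_ι]
    rfl
  -- the two-form
  have hd : dForm (pull h Φ β) z j = ∑ l, (ι ℂ (grad (h j l) z) * ι ℂ (J (b l)) +
      h j l z • ExteriorAlgebra.map J (dForm β w l)) := by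
    have e1 : dForm (pull h Φ β) z j = ∑ i, ∑ l,
        ((J (b l) i) • (ι ℂ (grad (h j l) z) * ι ℂ (Pi.single i 1)) +
        h j l z • ∑ s, (β l s w • (ι ℂ (grad (fun z => grad (Φ s) z i) z) * ι ℂ (Pi.single i 1)) +
          grad (Φ s) z i • (ι ℂ (J (grad (β l s) w)) * ι ℂ (Pi.single i 1)))) := by
      unfold dForm
      refine Finset.sum_congr rfl fun i _ => ?_
      rw [grad_pull h Φ β z hh hΦ hβ j i, map_sum, Finset.sum_mul]
      refine Finset.sum_congr rfl fun l _ => ?_
      rw [map_add, add_mul, map_smul, smul_mul_assoc, map_smul, smul_mul_assoc, map_sum,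
        Finset.sum_mul]
      congr 1
      congr 1
      refine Finset.sum_congr rfl fun s _ => ?_
      rw [map_add, add_mul, map_smul, smul_mul_assoc, map_smul, smul_mul_assoc]
    rw [e1, Finset.sum_comm]
    refine Finset.sum_congr rfl fun l _ => ?_
    rw [Finset.sum_add_distrib]
    congr 1
    · have e2 : J (b l) = ∑ i, J (b l) i • (Pi.single i 1 : Fin k → ℂ) := by
        ext t
        simp [Finset.sum_apply, Pi.single_apply]
      conv_rhs => rw [e2]
      rw [map_sum, Finset.mul_sum]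
      refine Finset.sum_congr rfl fun i _ => ?_
      rw [map_smul, mul_smul_comm]
    · rw [← Finset.smul_sum]
      congr 1
      rw [Finset.sum_comm]
      unfold dForm
      rw [map_sum]
      refine Finset.sum_congr rfl fun s _ => ?_
      rw [Finset.sum_add_distrib, ← Finset.smul_sum]
      have e3 : ∑ i, ι ℂ (grad (fun z => grad (Φ s) z i) z) * ι ℂ (Pi.single i 1 : Fin k → ℂ)
          = 0 :=
        sum_symm_eq_zero (fun t i => grad (fun z => grad (Φ s) z i) z t)
          fun t i => grad_grad_symm (hΦ s) z t i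
      rw [e3, smul_zero, zero_add, map_mul, map_apply_ι, map_apply_ι, hJ, jac_single]
      have e4 : grad (Φ s) z = ∑ i, grad (Φ s) z i • (Pi.single i 1 : Fin k → ℂ) := by
        ext t
        simp [Finset.sum_apply, Pi.single_apply]
      conv_rhs => rw [e4]
      rw [map_sum, Finset.mul_sum]
      refine Finset.sum_congr rfl fun i _ => ?_
      rw [map_smul, mul_smul_comm]
  rw [hprod, mul_smul_comm, hd, Finset.sum_mul]
  have hz : ∀ l, (ι ℂ (grad (h j l) z) * ι ℂ (J (b l)) +
      h j l z • ExteriorAlgebra.map J (dForm β w l)) * ιMulti ℂ q (fun l => J (b l)) = 0 := by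
    intro l
    rw [add_mul, mul_assoc, iota_mul_iMulti_self (fun l => J (b l)) l, mul_zero, zero_add,
      smul_mul_assoc, hmapprod, ← map_mul, hF l, map_zero, smul_zero]
  rw [Finset.sum_eq_zero fun l _ => hz l, smul_zero]

end Pool.Agent.Lib.MP_90485e_an
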