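import Pool.Agent.Lib.MP_90485e_an.Dens
import Pool.Agent.Lib.MP_90485e_an.Frob
import Pool.Agent.Lib.MP_90485e_an.PullAlg

/-!
# Stability of the approximable families under pull-back
-/

set_option autoImplicit false

namespace Pool.Agent.Lib.MP_90485e_an

open Filter Metric Topology

/-- Locally uniform convergence to a continuous function is continuous convergence. -/
theorem cc_iff {X Y : Type*} [TopologicalSpace X] [UniformSpace Y] {U : Set X} (hU : IsOpen U)
    {F : ℕ → X → Y} {f : X → Y} (hf : ContinuousOn f U) :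
    TendstoLocallyUniformlyOn F f atTop U ↔
      ∀ x ∈ U, Tendsto (fun p : ℕ × X => F p.1 p.2) (atTop ×ˢ 𝓝 x) (𝓝 (f x)) := by
  rw [tendstoLocallyUniformlyOn_iff_filter]
  refine forall₂_congr fun x hx => ?_
  rw [tendstoUniformlyOnFilter_iff_tendsto, hU.nhdsWithin_eq hx]
  have hfx : Tendsto (fun p : ℕ × X => f p.2) (atTop ×ˢ 𝓝 x) (𝓝 (f x)) :=
    (hf.continuousAt (hU.mem_nhds hx)).tendsto.comp tendsto_snd
  constructor
  · intro h
    rw [Uniform.tendsto_nhds_right] at hfx ⊢
    exact hfx.uniformity_trans h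
  · intro h
    rw [Uniform.tendsto_nhds_left] at hfx
    rw [Uniform.tendsto_nhds_right] at h
    exact hfx.uniformity_trans h

/-- limits of entire `C^1` functions: the derivatives converge continuously -/
theorem cc_grad {k : ℕ} {U : Set (Fin k → ℂ)} (hU : IsOpen U) {F : ℕ → (Fin k → ℂ) → ℂ}
    {f : (Fin k → ℂ) → ℂ} (hF : ∀ n, ContDiff ℂ 2 (F n))
    (h : TendstoLocallyUniformlyOn F f atTop U) (i : Fin k) :
    ContinuousOn (fun z => grad f z i) U ∧
      ∀ x ∈ U, Tendsto (fun p : ℕ × (Fin k → ℂ) => grad (F p.1) p.2 i) (atTop ×ˢ 𝓝 x)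
        (𝓝 (grad f x i)) := by
  obtain ⟨h1, h2⟩ := limit_holo hU (fun n => ((hF n).differentiable (by norm_num)).differentiableOn)
    h
  have hc : ContinuousOn (fun z => fderiv ℂ f z) U := by
    refine h2.continuousOn (Frequently.of_forall fun n => ?_)
    exact ((hF n).continuous_fderiv (by norm_num)).continuousOn
  have hL : Continuous fun T : (Fin k → ℂ) →L[ℂ] ℂ => T (Pi.single i 1) :=
    (ContinuousLinearMap.apply ℂ ℂ (Pi.single i 1 : Fin k → ℂ)).continuous
  refine ⟨hL.comp_continuousOn hc, fun x hx => ?_⟩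
  exact (hL.tendsto _).comp ((cc_iff hU hc).mp h2 x hx)

/-- Convergence of pull-backs. -/
theorem pull_convergesOn {k m q : ℕ} {U : Set (Fin k → ℂ)} (hU : IsOpen U)
    {Ω : Set (Fin m → ℂ)} (hΩ : IsOpen Ω)
    {H : ℕ → Fin q → Fin q → (Fin k → ℂ) → ℂ} {h : Fin q → Fin q → (Fin k → ℂ) → ℂ}
    (hHd : ∀ n j l, Continuous (H n j l))
    (hH : ∀ j l, TendstoLocallyUniformlyOn (fun n => H n j l) (h j l) atTop U)
    {P : ℕ → Fin m → (Fin k → ℂ) → ℂ} {Φ : Fin m → (Fin k → ℂ) → ℂ}
    (hPd : ∀ n s, ContDiff ℂ 2 (P n s))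
    (hP : ∀ s, TendstoLocallyUniformlyOn (fun n => P n s) (Φ s) atTop U)
    (hΦΩ : ∀ z ∈ U, (fun s => Φ s z) ∈ Ω)
    {A : ℕ → Forms m q} {β : Forms m q} (hAd : ∀ n, Holo Set.univ (A n))
    (hA : ConvergesOn Ω A β) :
    ConvergesOn U (fun n => pull (H n) (P n) (A n)) (pull h Φ β) := by
  have hhc : ∀ j l, ContinuousOn (h j l) U := fun j l =>
    (hH j l).continuousOn (Frequently.of_forall fun n => (hHd n j l).continuousOn)
  have hΦc : ∀ s, ContinuousOn (Φ s) U := fun s =>
    (hP s).continuousOn (Frequently.of_forall fun n => (hPd n s).continuous.continuousOn)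
  have hβc : ∀ l s, ContinuousOn (β l s) Ω := fun l s =>
    (hA l s).continuousOn (Frequently.of_forall fun n =>
      ((hAd n l s).continuousOn).mono (Set.subset_univ _))
  have hmap : ContinuousOn (fun z => (fun s => Φ s z : Fin m → ℂ)) U := continuousOn_pi.mpr hΦc
  intro j i
  have hc : ContinuousOn (pull h Φ β j i) U := by
    unfold pull
    refine continuousOn_finsetSum _ fun l _ => (hhc j l).mul ?_
    refine continuousOn_finsetSum _ fun s _ => ContinuousOn.mul ?_ ?_
    · exact (hβc l s).comp hmap hΦΩ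
    · exact (cc_grad hU (fun n => hPd n s) (hP s) i).1
  rw [cc_iff hU hc]
  intro x hx
  unfold pull
  refine tendsto_finsetSum _ fun l _ => Tendsto.mul ?_ ?_
  · exact (cc_iff hU (hhc j l)).mp (hH j l) x hx
  · refine tendsto_finsetSum _ fun s _ => Tendsto.mul ?_ ?_
    · have h1 := (cc_iff hΩ (hβc l s)).mp (hA l s) _ (hΦΩ x hx)
      have h2 : Tendsto (fun p : ℕ × (Fin k → ℂ) => (p.1, fun s' => P p.1 s' p.2))
          (atTop ×ˢ 𝓝 x) (atTop ×ˢ 𝓝 (fun s' => Φ s' x)) := by
        refine tendsto_fst.prodMk ?_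
        rw [tendsto_pi_nhds]
        intro s'
        exact (cc_iff hU (hΦc s')).mp (hP s') x hx
      exact h1.comp h2
    · exact (cc_grad hU (fun n => hPd n s) (hP s) i).2 x hx

/-- a limit of integrable families is integrable and holomorphic -/
theorem limit_integrable {k q : ℕ} {U : Set (Fin k → ℂ)} (hU : IsOpen U) {A : ℕ → Forms k q}
    {α : Forms k q} (hAd : ∀ n, Holo U (A n)) (hAF : ∀ n, ∀ z ∈ U, FrobeniusAt (A n) z)
    (hA : ConvergesOn U A α) : Holo U α ∧ ∀ z ∈ U, FrobeniusAt α z := by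
  refine ⟨fun j i => (limit_holo hU (fun n => hAd n j i) (hA j i)).1, fun z hz => ?_⟩
  refine frobeniusAt_of_tendsto (A := A) (fun n => hAF n z hz)
    (fun j i => (hA j i).tendsto_at hz) fun j i t => ?_
  have h := ((limit_holo hU (fun n => hAd n j i) (hA j i)).2).tendsto_at hz
  have hL : Continuous fun T : (Fin k → ℂ) →L[ℂ] ℂ => T (Pi.single t 1) :=
    (ContinuousLinearMap.apply ℂ ℂ (Pi.single t 1 : Fin k → ℂ)).continuous
  exact (hL.tendsto _).comp h

theorem contDiff_eval {k : ℕ} (p : MvPolynomial (Fin k) ℂ) {n : WithTop ℕ∞} :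
    ContDiff ℂ n fun z : Fin k → ℂ => MvPolynomial.eval z p := by
  induction p using MvPolynomial.induction_on with
  | C a => simpa using contDiff_const
  | add p p' hp hp' => simpa using hp.add hp'
  | mul_X p i hp => simpa using hp.mul (contDiff_apply ℂ ℂ i)

theorem grad_eval {k : ℕ} (p : MvPolynomial (Fin k) ℂ) (z : Fin k → ℂ) (i : Fin k) :
    grad (fun z => MvPolynomial.eval z p) z i = MvPolynomial.eval z (MvPolynomial.pderiv i p) := by
  induction p using MvPolynomial.induction_on with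
  | C a => simp [grad]
  | add p p' hp hp' =>
    have hd : ∀ p : MvPolynomial (Fin k) ℂ, DifferentiableAt ℂ
        (fun z : Fin k → ℂ => MvPolynomial.eval z p) z := fun p =>
      ((contDiff_eval p (n := 1)).differentiable (by norm_num)) z
    unfold grad at *
    simp only [map_add]
    rw [fderiv_fun_add (hd p) (hd p'), ← hp, ← hp']
    rfl
  | mul_X p j hp =>
    have hd : ∀ p : MvPolynomial (Fin k) ℂ, DifferentiableAt ℂ
        (fun z : Fin k → ℂ => MvPolynomial.eval z p) z := fun p =>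
      ((contDiff_eval p (n := 1)).differentiable (by norm_num)) z
    unfold grad at *
    simp only [map_mul, MvPolynomial.eval_X]
    have hX : HasFDerivAt (fun z : Fin k → ℂ => z j)
      (ContinuousLinearMap.proj j : (Fin k → ℂ) →L[ℂ] ℂ) z := hasFDerivAt_apply j z
    have hmul : HasFDerivAt (fun z : Fin k → ℂ => MvPolynomial.eval z p * z j) _ z :=
      (hd p).hasFDerivAt.mul hX
    rw [hmul.fderiv]
    simp only [_root_.add_apply, _root_.smul_apply, ContinuousLinearMap.proj_apply,
      smul_eq_mul, hp]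
    rw [Derivation.leibniz, MvPolynomial.pderiv_X]
    simp only [smul_eq_mul, map_add, map_mul, MvPolynomial.eval_X]
    by_cases hij : i = j
    · subst hij
      simp
    · simp [Ne.symm hij]

theorem isPoly_pull {k m q : ℕ} {h : Fin q → Fin q → MvPolynomial (Fin k) ℂ}
    {Φ : Fin m → MvPolynomial (Fin k) ℂ} {β : Forms m q} (hβ : IsPoly β) :
    IsPoly (pull (fun j l z => MvPolynomial.eval z (h j l)) (fun s z => MvPolynomial.eval z (Φ s))
      β) := by
  choose b hb using hβ
  intro j i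
  refine ⟨∑ l, h j l * ∑ s, MvPolynomial.bind₁ Φ (b l s) * MvPolynomial.pderiv i (Φ s), ?_⟩
  funext z
  unfold pull
  rw [map_sum]
  refine Finset.sum_congr rfl fun l _ => ?_
  rw [map_mul, map_sum]
  congr 1
  refine Finset.sum_congr rfl fun s _ => ?_
  rw [map_mul, grad_eval, hb]
  congr 1
  exact (MvPolynomial.eval₂Hom_bind₁ (RingHom.id ℂ) z Φ (b l s)).symm

theorem holo_pull {k m q : ℕ} {h : Fin q → Fin q → (Fin k → ℂ) → ℂ}
    {Φ : Fin m → (Fin k → ℂ) → ℂ} {β : Forms m q} (hh : ∀ j l, Differentiable ℂ (h j l))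
    (hΦ : ∀ s, ContDiff ℂ 2 (Φ s)) (hβ : Holo Set.univ β) : Holo Set.univ (pull h Φ β) := by
  intro j i
  rw [differentiableOn_univ]
  unfold pull
  refine Differentiable.fun_sum fun l _ => (hh j l).mul (Differentiable.fun_sum fun s _ => ?_)
  refine Differentiable.mul ?_ ?_
  · have h1 : Differentiable ℂ (β l s) := by
      rw [← differentiableOn_univ]
      exact hβ l s
    refine h1.comp ?_
    rw [differentiable_pi]
    exact fun s' => (hΦ s').differentiable (by norm_num)
  · unfold grad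
    have h2 : Differentiable ℂ (fderiv ℂ (Φ s)) :=
      ((hΦ s).fderiv_right (m := 1) (by norm_num)).differentiable (by norm_num)
    exact h2.clm_apply (differentiable_const _)

/-- **Stability under pull-back** (entire version). -/
theorem entireLimit_pull {k m q : ℕ} {R : ℝ} {Ω : Set (Fin m → ℂ)} (hΩ : IsOpen Ω)
    {β : Forms m q} (hβ : EntireLimit Ω β) {h : Fin q → Fin q → (Fin k → ℂ) → ℂ}
    (hh : ∀ j l, DifferentiableOn ℂ (h j l) (polydisc k R)) {Φ : Fin m → (Fin k → ℂ) → ℂ}
    (hΦ : ∀ s, DifferentiableOn ℂ (Φ s) (polydisc k R))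
    (hΦΩ : ∀ z ∈ polydisc k R, (fun s => Φ s z) ∈ Ω) :
    EntireLimit (polydisc k R) (pull h Φ β) := by
  obtain ⟨A, hAd, hAF, hAc⟩ := hβ
  choose H hH using fun j l => exists_poly_seq (hh j l)
  choose P hP using fun s => exists_poly_seq (hΦ s)
  have hcd : ∀ p : MvPolynomial (Fin k) ℂ, Differentiable ℂ
      fun z : Fin k → ℂ => MvPolynomial.eval z p := fun p =>
    (contDiff_eval p (n := 1)).differentiable (by norm_num)
  refine ⟨fun n => pull (fun j l z => MvPolynomial.eval z (H j l n))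
    (fun s z => MvPolynomial.eval z (P s n)) (A n), fun n => ?_, fun n z => ?_, ?_⟩
  · exact holo_pull (fun j l => hcd _) (fun s => contDiff_eval _) (hAd n)
  · refine frobenius_pull _ _ _ z (fun j l => hcd _ z) (fun s => contDiff_eval _) ?_ (hAF n _)
    intro l s
    exact ((differentiableOn_univ.mp (hAd n l s)) _)
  · exact pull_convergesOn (isOpen_polydisc k R) hΩ (fun n j l => (hcd _).continuous) hH
      (fun n s => contDiff_eval _) hP hΦΩ hAd hAc

/-- **Stability under pull-back** (polynomial version). -/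
theorem polyLimit_pull {k m q : ℕ} {R : ℝ} {Ω : Set (Fin m → ℂ)} (hΩ : IsOpen Ω)
    {β : Forms m q} (hβ : PolyLimit Ω β) {h : Fin q → Fin q → (Fin k → ℂ) → ℂ}
    (hh : ∀ j l, DifferentiableOn ℂ (h j l) (polydisc k R)) {Φ : Fin m → (Fin k → ℂ) → ℂ}
    (hΦ : ∀ s, DifferentiableOn ℂ (Φ s) (polydisc k R))
    (hΦΩ : ∀ z ∈ polydisc k R, (fun s => Φ s z) ∈ Ω) :
    PolyLimit (polydisc k R) (pull h Φ β) := by
  obtain ⟨A, hAp, hAF, hAc⟩ := hβ
  choose H hH using fun j l => exists_poly_seq (hh j l)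
  choose P hP using fun s => exists_poly_seq (hΦ s)
  have hcd : ∀ {k : ℕ} (p : MvPolynomial (Fin k) ℂ), Differentiable ℂ
      fun z : Fin k → ℂ => MvPolynomial.eval z p := fun p =>
    (contDiff_eval p (n := 1)).differentiable (by norm_num)
  have hAd : ∀ n, Holo Set.univ (A n) := by
    intro n l s
    obtain ⟨p, hp⟩ := hAp n l s
    rw [hp]
    exact (hcd p).differentiableOn
  refine ⟨fun n => pull (fun j l z => MvPolynomial.eval z (H j l n))
    (fun s z => MvPolynomial.eval z (P s n)) (A n), fun n => ?_, fun n z => ?_, ?_⟩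
  · exact isPoly_pull (hAp n)
  · refine frobenius_pull _ _ _ z (fun j l => hcd _ z) (fun s => contDiff_eval _) ?_ (hAF n _)
    intro l s
    exact ((differentiableOn_univ.mp (hAd n l s)) _)
  · exact pull_convergesOn (isOpen_polydisc k R) hΩ (fun n j l => (hcd _).continuous) hH
      (fun n s => contDiff_eval _) hP hΦΩ hAd hAc

end Pool.Agent.Lib.MP_90485e_an
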