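import Pool.Agent.Lib.MP_90485e_an.Enl

/-!
# A class of foliations for which the approximation exists
-/

set_option autoImplicit false

namespace Pool.Agent.Lib.MP_90485e_an

open Filter Metric Topology ExteriorAlgebra

/-- The class generated, for a given notion `B` of global families (`B = IsPoly`, or `B` = entire),
by the families of `q` forms in at most `q + 1` variables and the global integrable families, under
pull-back, multiplication with matrices, concatenation, limits and exhaustion. The real parameter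
`R` is the radius of the polydisc. -/
inductive Tame (B : ∀ m q : ℕ, Forms m q → Prop) : (k q : ℕ) → ℝ → Forms k q → Prop
  | low {m q : ℕ} {R : ℝ} {β : Forms m q} (hm : m ≤ q + 1) (hβ : Holo (polydisc m R) β) :
      Tame B m q R β
  | glob {m q : ℕ} {R : ℝ} {β : Forms m q} (hβ : B m q β) (hF : ∀ w, FrobeniusAt β w) :
      Tame B m q R β
  | pull {k m q : ℕ} {R S : ℝ} {β : Forms m q} (h : Fin q → Fin q → (Fin k → ℂ) → ℂ)
      (Φ : Fin m → (Fin k → ℂ) → ℂ) (hh : ∀ j l, DifferentiableOn ℂ (h j l) (polydisc k R))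
      (hΦ : ∀ s, DifferentiableOn ℂ (Φ s) (polydisc k R))
      (hΦS : ∀ z ∈ polydisc k R, (fun s => Φ s z) ∈ polydisc m S) (hβ : Tame B m q S β) :
      Tame B k q R (pull h Φ β)
  | append {k q₁ q₂ : ℕ} {R : ℝ} {α₁ : Forms k q₁} {α₂ : Forms k q₂} (h₁ : Tame B k q₁ R α₁)
      (h₂ : Tame B k q₂ R α₂) : Tame B k (q₁ + q₂) R (Fin.append α₁ α₂)
  | lim {k q : ℕ} {R : ℝ} {A : ℕ → Forms k q} {α : Forms k q} (hA : ∀ n, Tame B k q R (A n))
      (hAα : ConvergesOn (polydisc k R) A α) : Tame B k q R α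
  | exhaust {k q : ℕ} {R : ℝ} {α : Forms k q} (h : ∀ r < R, Tame B k q r α) : Tame B k q R α

theorem convergesOn_const {k q : ℕ} (U : Set (Fin k → ℂ)) (β : Forms k q) :
    ConvergesOn U (fun _ => β) β := by
  intro j i
  rw [Metric.tendstoLocallyUniformlyOn_iff]
  intro ε hε x _
  exact ⟨U, self_mem_nhdsWithin, Eventually.of_forall fun n z _ => by simpa using hε⟩

/-- Convergence on polydiscs in terms of single approximants. -/
theorem limit_iff {k q : ℕ} (C : Forms k q → Prop) {R : ℝ} {α : Forms k q} :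
    (∃ A : ℕ → Forms k q, (∀ n, C (A n)) ∧ ConvergesOn (polydisc k R) A α) ↔
      ∀ r < R, ∀ ε > 0, ∃ A : Forms k q, C A ∧
        ∀ j i, ∀ z ∈ polydisc k r, ‖A j i z - α j i z‖ < ε := by
  constructor
  · rintro ⟨A, hC, hA⟩ r hr ε hε
    have hev : ∀ᶠ n in atTop, ∀ j i, ∀ z ∈ polydisc k r, ‖A n j i z - α j i z‖ < ε := by
      rw [eventually_all]
      intro j
      rw [eventually_all]
      intro i
      have hK : IsCompact (Set.pi Set.univ fun _ : Fin k => closedBall (0 : ℂ) r) :=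
        isCompact_univ_pi fun _ => isCompact_closedBall _ _
      have h1 := (tendstoLocallyUniformlyOn_iff_forall_isCompact (isOpen_polydisc k R)).mp (hA j i)
        _ ?_ hK
      · rw [Metric.tendstoUniformlyOn_iff] at h1
        filter_upwards [h1 ε hε] with n hn z hz
        have := hn z ?_
        · rwa [dist_comm, dist_eq_norm] at this
        · rw [Set.mem_univ_pi]
          exact fun i => by
            rw [mem_closedBall, dist_zero_right]
            exact (hz i).le
      · intro z hz i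
        have := Set.mem_univ_pi.mp hz i
        rw [mem_closedBall, dist_zero_right] at this
        exact this.trans_lt hr
    obtain ⟨n, hn⟩ := hev.exists
    exact ⟨A n, hC n, hn⟩
  · intro h
    choose A hC hA using fun n : ℕ => h (R - 1 / ((n : ℝ) + 1)) (by
      have : 0 < 1 / ((n : ℝ) + 1) := by positivity
      linarith) (1 / ((n : ℝ) + 1)) (by positivity)
    refine ⟨A, hC, fun j i => ?_⟩
    rw [Metric.tendstoLocallyUniformlyOn_iff]
    intro ε hε z0 hz0
    obtain ⟨r, hrR, hr⟩ : ∃ r < R, z0 ∈ polydisc k r := by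
      rcases k.eq_zero_or_pos with hk | hk
      · subst hk
        exact ⟨R - 1, by linarith, fun i => i.elim0⟩
      · have hR : 0 < R := (norm_nonneg _).trans_lt (hz0 ⟨0, hk⟩)
        have h1 : ‖z0‖ < R := (pi_norm_lt_iff hR).mpr hz0
        refine ⟨(R + ‖z0‖) / 2, by linarith, fun i => ?_⟩
        have h2 := norm_le_pi_norm z0 i
        linarith
    refine ⟨polydisc k r, mem_nhdsWithin_of_mem_nhds ((isOpen_polydisc k r).mem_nhds hr), ?_⟩
    have h1 : Tendsto (fun n : ℕ => 1 / ((n : ℝ) + 1)) atTop (𝓝 0) :=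
      tendsto_one_div_add_atTop_nhds_zero_nat
    filter_upwards [h1.eventually (gt_mem_nhds hε), h1.eventually (gt_mem_nhds (sub_pos.mpr hrR))]
      with n hn1 hn2
    intro z hz
    rw [dist_comm, dist_eq_norm]
    exact (hA n j i z (polydisc_mono (by linarith) hz)).trans hn1

/-- closure under limits and exhaustion -/
theorem limit_of_near {k q : ℕ} (C : Forms k q → Prop) {R : ℝ} {α : Forms k q}
    (h : ∀ r < R, ∀ ε > 0, ∃ β : Forms k q,
      (∃ A : ℕ → Forms k q, (∀ n, C (A n)) ∧ ConvergesOn (polydisc k r) A β) ∧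
        ∀ j i, ∀ z ∈ polydisc k r, ‖β j i z - α j i z‖ < ε) :
    ∃ A : ℕ → Forms k q, (∀ n, C (A n)) ∧ ConvergesOn (polydisc k R) A α := by
  rw [limit_iff]
  intro r hr ε hε
  obtain ⟨r', hrr', hr'R⟩ := exists_between hr
  obtain ⟨β, hβ, hβα⟩ := h r' hr'R (ε / 2) (by positivity)
  obtain ⟨A, hC, hA⟩ := (limit_iff C).mp hβ r hrr' (ε / 2) (by positivity)
  refine ⟨A, hC, fun j i z hz => ?_⟩
  calc ‖A j i z - α j i z‖ = ‖(A j i z - β j i z) + (β j i z - α j i z)‖ := by ring_nf
    _ ≤ ‖A j i z - β j i z‖ + ‖β j i z - α j i z‖ := norm_add_le _ _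
    _ < ε / 2 + ε / 2 := add_lt_add (hA j i z hz) (hβα j i z (polydisc_mono hrr'.le hz))
    _ = ε := by ring

/-- two-forms are central up to covectors -/
theorem iota_comm {k : ℕ} (x y v : Fin k → ℂ) :
    ι ℂ x * ι ℂ y * ι ℂ v = ι ℂ v * (ι ℂ x * ι ℂ y) := by
  have h1 : ι ℂ y * ι ℂ v = -(ι ℂ v * ι ℂ y) := by
    rw [eq_neg_iff_add_eq_zero]
    exact ι_add_mul_swap _ _
  have h2 : ι ℂ x * ι ℂ v = -(ι ℂ v * ι ℂ x) := by
    rw [eq_neg_iff_add_eq_zero]
    exact ι_add_mul_swap _ _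
  rw [mul_assoc, h1, mul_neg, ← mul_assoc, h2, neg_mul, neg_neg, mul_assoc]

theorem dForm_comm_prod {k q : ℕ} (α : Forms k q) (z : Fin k → ℂ) (j : Fin q)
    (L : List (Fin k → ℂ)) :
    dForm α z j * (L.map (ι ℂ)).prod = (L.map (ι ℂ)).prod * dForm α z j := by
  induction L with
  | nil => simp
  | cons v L ih =>
    rw [List.map_cons, List.prod_cons, ← mul_assoc]
    have h1 : dForm α z j * ι ℂ v = ι ℂ v * dForm α z j := by
      unfold dForm
      rw [Finset.sum_mul, Finset.mul_sum]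
      exact Finset.sum_congr rfl fun i _ => iota_comm _ _ _
    rw [h1, mul_assoc, ih, mul_assoc]

theorem frobenius_append {k q₁ q₂ : ℕ} {α₁ : Forms k q₁} {α₂ : Forms k q₂} {z : Fin k → ℂ}
    (h₁ : FrobeniusAt α₁ z) (h₂ : FrobeniusAt α₂ z) : FrobeniusAt (Fin.append α₁ α₂) z := by
  have hcov : (List.ofFn fun l => covec (Fin.append α₁ α₂) z l).prod
      = (List.ofFn fun l => covec α₁ z l).prod * (List.ofFn fun l => covec α₂ z l).prod := by
    have : (fun l => covec (Fin.append α₁ α₂) z l)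
        = Fin.append (fun l => covec α₁ z l) (fun l => covec α₂ z l) := by
      funext l
      refine Fin.addCases (fun l => ?_) (fun l => ?_) l
      · simp [covec]
      · simp [covec]
    rw [this, List.ofFn_fin_append, List.prod_append]
  intro j
  rw [hcov]
  refine Fin.addCases (fun j => ?_) (fun j => ?_) j
  · have h3 : dForm (Fin.append α₁ α₂) z (Fin.castAdd q₂ j) = dForm α₁ z j := by
      simp [dForm]
    rw [h3, ← mul_assoc, h₁ j, zero_mul]
  · have h3 : dForm (Fin.append α₁ α₂) z (Fin.natAdd q₁ j) = dForm α₂ z j := by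
      simp [dForm]
    have h4 : (List.ofFn fun l => covec α₁ z l)
        = (List.ofFn fun l => (fun i => α₁ l i z : Fin k → ℂ)).map (ι ℂ) := by
      rw [List.map_ofFn]
      rfl
    rw [h3, ← mul_assoc, h4, dForm_comm_prod, mul_assoc, h₂ j, mul_zero]

theorem convergesOn_append {k q₁ q₂ : ℕ} {U : Set (Fin k → ℂ)} {A₁ : ℕ → Forms k q₁}
    {A₂ : ℕ → Forms k q₂} {α₁ : Forms k q₁} {α₂ : Forms k q₂} (h₁ : ConvergesOn U A₁ α₁)
    (h₂ : ConvergesOn U A₂ α₂) :
    ConvergesOn U (fun n => Fin.append (A₁ n) (A₂ n)) (Fin.append α₁ α₂) := by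
  intro j i
  refine Fin.addCases (fun j => ?_) (fun j => ?_) j
  · simpa using h₁ j i
  · simpa using h₂ j i

/-- Polynomially tame families are limits of polynomial integrable families. -/
theorem Tame.polyLimit {k q : ℕ} {R : ℝ} {α : Forms k q} (h : Tame (fun _ _ β => IsPoly β) k q R α) :
    PolyLimit (polydisc k R) α := by
  induction h with
  | low hm hβ => exact polyLimit_dim hm hβ
  | @glob m q R β hβ hF =>
    exact ⟨fun _ => β, fun _ => hβ, fun _ => hF, convergesOn_const _ _⟩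
  | pull h Φ hh hΦ hΦS hβ ih => exact polyLimit_pull (isOpen_polydisc _ _) ih hh hΦ hΦS
  | append h₁ h₂ ih₁ ih₂ =>
    obtain ⟨A₁, p₁, f₁, c₁⟩ := ih₁
    obtain ⟨A₂, p₂, f₂, c₂⟩ := ih₂
    refine ⟨fun n => Fin.append (A₁ n) (A₂ n), fun n j => ?_,
      fun n z => frobenius_append (f₁ n z) (f₂ n z), convergesOn_append c₁ c₂⟩
    refine Fin.addCases (fun j => ?_) (fun j => ?_) j
    · simpa using p₁ n j
    · simpa using p₂ n j
  | @lim k q R A α hA hAα ih =>
    have h := limit_of_near (fun A : Forms k q => IsPoly A ∧ ∀ z, FrobeniusAt A z) (R := R)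
      (α := α) fun r hr ε hε => by
        obtain ⟨β, ⟨n, rfl⟩, hβ⟩ := (limit_iff (fun β => ∃ n, A n = β)).mp
          ⟨A, fun n => ⟨n, rfl⟩, hAα⟩ r hr ε hε
        refine ⟨A n, ?_, hβ⟩
        obtain ⟨B, h1, h2, h3⟩ := ih n
        exact ⟨B, fun n => ⟨h1 n, h2 n⟩, fun j i => (h3 j i).mono (polydisc_mono hr.le)⟩
    obtain ⟨B, h1, h2⟩ := h
    exact ⟨B, fun n => (h1 n).1, fun n => (h1 n).2, h2⟩
  | @exhaust k q R α h ih =>
    have h := limit_of_near (fun A : Forms k q => IsPoly A ∧ ∀ z, FrobeniusAt A z) (R := R)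
      (α := α) fun r hr ε hε => by
        refine ⟨α, ?_, fun j i z _ => by simpa using hε⟩
        obtain ⟨B, h1, h2, h3⟩ := ih r hr
        exact ⟨B, fun n => ⟨h1 n, h2 n⟩, h3⟩
    obtain ⟨B, h1, h2⟩ := h
    exact ⟨B, fun n => (h1 n).1, fun n => (h1 n).2, h2⟩

/-- Tame families are limits of entire integrable families. -/
theorem Tame.entireLimit {k q : ℕ} {R : ℝ} {α : Forms k q}
    (h : Tame (fun _ _ β => Holo Set.univ β) k q R α) : EntireLimit (polydisc k R) α := by
  induction h with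
  | low hm hβ => exact (polyLimit_dim hm hβ).entireLimit
  | @glob m q R β hβ hF =>
    exact ⟨fun _ => β, fun _ => hβ, fun _ => hF, convergesOn_const _ _⟩
  | pull h Φ hh hΦ hΦS hβ ih => exact entireLimit_pull (isOpen_polydisc _ _) ih hh hΦ hΦS
  | append h₁ h₂ ih₁ ih₂ =>
    obtain ⟨A₁, p₁, f₁, c₁⟩ := ih₁
    obtain ⟨A₂, p₂, f₂, c₂⟩ := ih₂
    refine ⟨fun n => Fin.append (A₁ n) (A₂ n), fun n j => ?_,
      fun n z => frobenius_append (f₁ n z) (f₂ n z), convergesOn_append c₁ c₂⟩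
    refine Fin.addCases (fun j => ?_) (fun j => ?_) j
    · simpa using p₁ n j
    · simpa using p₂ n j
  | @lim k q R A α hA hAα ih =>
    have h := limit_of_near (fun A : Forms k q => Holo Set.univ A ∧ ∀ z, FrobeniusAt A z) (R := R)
      (α := α) fun r hr ε hε => by
        obtain ⟨β, ⟨n, rfl⟩, hβ⟩ := (limit_iff (fun β => ∃ n, A n = β)).mp
          ⟨A, fun n => ⟨n, rfl⟩, hAα⟩ r hr ε hε
        refine ⟨A n, ?_, hβ⟩
        obtain ⟨B, h1, h2, h3⟩ := ih n
        exact ⟨B, fun n => ⟨h1 n, h2 n⟩, fun j i => (h3 j i).mono (polydisc_mono hr.le)⟩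
    obtain ⟨B, h1, h2⟩ := h
    exact ⟨B, fun n => (h1 n).1, fun n => (h1 n).2, h2⟩
  | @exhaust k q R α h ih =>
    have h := limit_of_near (fun A : Forms k q => Holo Set.univ A ∧ ∀ z, FrobeniusAt A z) (R := R)
      (α := α) fun r hr ε hε => by
        refine ⟨α, ?_, fun j i z _ => by simpa using hε⟩
        obtain ⟨B, h1, h2, h3⟩ := ih r hr
        exact ⟨B, fun n => ⟨h1 n, h2 n⟩, h3⟩
    obtain ⟨B, h1, h2⟩ := h
    exact ⟨B, fun n => (h1 n).1, fun n => (h1 n).2, h2⟩

end Pool.Agent.Lib.MP_90485e_an
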